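import Pool.Agent.helper55.NA.Cert2

/-!
# MP_c8d30a, THEOREM (A): the composites RRR and BBB of section 5 (generated): four Theta moves which permute the contents of one word
-/

set_option autoImplicit false

namespace NTC

open NTH NTS

universe u
variable {Ω : Type u} {p : Ω → Ω}

/-- red, contents order c :: X0 ++ p b :: X4 ++ a :: X1 ++ b :: X3 ++ d :: X5 ++ p a :: X2 ++ p d :: X6. -/
theorem rrr_sep1 (hinv : ∀ t, p (p t) = t) (c a b d y : Ω) (X0 X1 X2 X3 X4 X5 X6 B : List Ω) (hB : BY p c y B) :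
    Chain p 4 (c :: X0 ++ a :: X1 ++ p a :: X2 ++ b :: X3 ++ p b :: X4 ++ d :: X5 ++ p d :: X6, B)
      (c :: X0 ++ p b :: X4 ++ a :: X1 ++ b :: X3 ++ d :: X5 ++ p a :: X2 ++ p d :: X6, B) := by
  cases hB with
  | a I1 K1 H1 L1 =>
    have h := run_sound (p := p) hinv (fun n => [c, a, b, d, y].getD n c) (fun n => [X0, X1, X2, X3, X4, X5, X6, I1, K1, H1, L1].getD n [])
      [.th 0 1 4, .th 4 2 0, .th 0 3 4, .th 4 1 0] ([.t 0 false, .w 0, .t 1 false, .w 1, .t 1 true, .w 2, .t 2 false, .w 3, .t 2 true, .w 4, .t 3 false, .w 5, .t 3 true, .w 6], [.w 7, .t 4 false, .w 8, .t 0 true, .w 9, .t 4 true, .w 10]) _ rfl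
    have h2 := Chain.rot (p := p) (evl p (fun n => [c, a, b, d, y].getD n c) (fun n => [X0, X1, X2, X3, X4, X5, X6, I1, K1, H1, L1].getD n []) [.t 1 true, .w 2, .t 3 true, .w 6])
      (evl p (fun n => [c, a, b, d, y].getD n c) (fun n => [X0, X1, X2, X3, X4, X5, X6, I1, K1, H1, L1].getD n []) [.t 0 false, .w 0, .t 2 true, .w 4, .t 1 false, .w 1, .t 2 false, .w 3, .t 3 false, .w 5])
      (I1 ++ y :: K1 ++ p c :: H1 ++ p y :: L1)
    have h3 := h.trans (by simpa [evs, evl, ev, tk] using h2)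
    simpa [evs, evl, ev, tk, cost] using h3
  | b I1 H1 K1 L1 =>
    have h := run_sound (p := p) hinv (fun n => [c, a, b, d, y].getD n c) (fun n => [X0, X1, X2, X3, X4, X5, X6, I1, H1, K1, L1].getD n [])
      [.th 0 1 4, .th 4 2 0, .th 0 3 4, .th 4 1 0] ([.t 0 false, .w 0, .t 1 false, .w 1, .t 1 true, .w 2, .t 2 false, .w 3, .t 2 true, .w 4, .t 3 false, .w 5, .t 3 true, .w 6], [.w 7, .t 4 false, .w 8, .t 4 true, .w 9, .t 0 true, .w 10]) _ rfl
    have h2 := Chain.rot (p := p) (evl p (fun n => [c, a, b, d, y].getD n c) (fun n => [X0, X1, X2, X3, X4, X5, X6, I1, H1, K1, L1].getD n []) [.t 1 true, .w 2, .t 3 true, .w 6])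
      (evl p (fun n => [c, a, b, d, y].getD n c) (fun n => [X0, X1, X2, X3, X4, X5, X6, I1, H1, K1, L1].getD n []) [.t 0 false, .w 0, .t 2 true, .w 4, .t 1 false, .w 1, .t 2 false, .w 3, .t 3 false, .w 5])
      (I1 ++ y :: H1 ++ p y :: K1 ++ p c :: L1)
    have h3 := h.trans (by simpa [evs, evl, ev, tk] using h2)
    simpa [evs, evl, ev, tk, cost] using h3

/-- red, contents order c :: X0 ++ b :: X3 ++ d :: X5 ++ a :: X1 ++ p b :: X4 ++ p a :: X2 ++ p d :: X6. -/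
theorem rrr_sep2 (hinv : ∀ t, p (p t) = t) (c a b d y : Ω) (X0 X1 X2 X3 X4 X5 X6 B : List Ω) (hB : BY p c y B) :
    Chain p 4 (c :: X0 ++ a :: X1 ++ p a :: X2 ++ b :: X3 ++ p b :: X4 ++ d :: X5 ++ p d :: X6, B)
      (c :: X0 ++ b :: X3 ++ d :: X5 ++ a :: X1 ++ p b :: X4 ++ p a :: X2 ++ p d :: X6, B) := by
  cases hB with
  | a I1 K1 H1 L1 =>
    have h := run_sound (p := p) hinv (fun n => [c, a, b, d, y].getD n c) (fun n => [X0, X1, X2, X3, X4, X5, X6, I1, K1, H1, L1].getD n [])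
      [.th 0 2 4, .th 4 3 0, .th 0 1 4, .th 4 2 0] ([.t 0 false, .w 0, .t 1 false, .w 1, .t 1 true, .w 2, .t 2 false, .w 3, .t 2 true, .w 4, .t 3 false, .w 5, .t 3 true, .w 6], [.w 7, .t 4 false, .w 8, .t 0 true, .w 9, .t 4 true, .w 10]) _ rfl
    have h2 := Chain.rot (p := p) (evl p (fun n => [c, a, b, d, y].getD n c) (fun n => [X0, X1, X2, X3, X4, X5, X6, I1, K1, H1, L1].getD n []) [.t 2 true, .w 4, .t 1 true, .w 2, .t 3 true, .w 6])
      (evl p (fun n => [c, a, b, d, y].getD n c) (fun n => [X0, X1, X2, X3, X4, X5, X6, I1, K1, H1, L1].getD n []) [.t 0 false, .w 0, .t 2 false, .w 3, .t 3 false, .w 5, .t 1 false, .w 1])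
      (I1 ++ y :: K1 ++ p c :: H1 ++ p y :: L1)
    have h3 := h.trans (by simpa [evs, evl, ev, tk] using h2)
    simpa [evs, evl, ev, tk, cost] using h3
  | b I1 H1 K1 L1 =>
    have h := run_sound (p := p) hinv (fun n => [c, a, b, d, y].getD n c) (fun n => [X0, X1, X2, X3, X4, X5, X6, I1, H1, K1, L1].getD n [])
      [.th 0 2 4, .th 4 3 0, .th 0 1 4, .th 4 2 0] ([.t 0 false, .w 0, .t 1 false, .w 1, .t 1 true, .w 2, .t 2 false, .w 3, .t 2 true, .w 4, .t 3 false, .w 5, .t 3 true, .w 6], [.w 7, .t 4 false, .w 8, .t 4 true, .w 9, .t 0 true, .w 10]) _ rfl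
    have h2 := Chain.rot (p := p) (evl p (fun n => [c, a, b, d, y].getD n c) (fun n => [X0, X1, X2, X3, X4, X5, X6, I1, H1, K1, L1].getD n []) [.t 2 true, .w 4, .t 1 true, .w 2, .t 3 true, .w 6])
      (evl p (fun n => [c, a, b, d, y].getD n c) (fun n => [X0, X1, X2, X3, X4, X5, X6, I1, H1, K1, L1].getD n []) [.t 0 false, .w 0, .t 2 false, .w 3, .t 3 false, .w 5, .t 1 false, .w 1])
      (I1 ++ y :: H1 ++ p y :: K1 ++ p c :: L1)
    have h3 := h.trans (by simpa [evs, evl, ev, tk] using h2)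
    simpa [evs, evl, ev, tk, cost] using h3

/-- red, contents order c :: X0 ++ b :: X2 ++ a :: X1 ++ d :: X3 ++ p b :: X5 ++ p a :: X4 ++ p d :: X6. -/
theorem rrr_cross (hinv : ∀ t, p (p t) = t) (c a b d y : Ω) (X0 X1 X2 X3 X4 X5 X6 B : List Ω) (hB : BY p c y B) :
    Chain p 4 (c :: X0 ++ a :: X1 ++ b :: X2 ++ d :: X3 ++ p a :: X4 ++ p b :: X5 ++ p d :: X6, B)
      (c :: X0 ++ b :: X2 ++ a :: X1 ++ d :: X3 ++ p b :: X5 ++ p a :: X4 ++ p d :: X6, B) := by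
  cases hB with
  | a I1 K1 H1 L1 =>
    have h := run_sound (p := p) hinv (fun n => [c, a, b, d, y].getD n c) (fun n => [X0, X1, X2, X3, X4, X5, X6, I1, K1, H1, L1].getD n [])
      [.th 0 1 4, .th 4 2 0, .th 0 3 4, .th 4 1 0] ([.t 0 false, .w 0, .t 1 false, .w 1, .t 2 false, .w 2, .t 3 false, .w 3, .t 1 true, .w 4, .t 2 true, .w 5, .t 3 true, .w 6], [.w 7, .t 4 false, .w 8, .t 0 true, .w 9, .t 4 true, .w 10]) _ rfl
    have h2 := Chain.rot (p := p) (evl p (fun n => [c, a, b, d, y].getD n c) (fun n => [X0, X1, X2, X3, X4, X5, X6, I1, K1, H1, L1].getD n []) [.t 1 true, .w 4, .t 3 true, .w 6])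
      (evl p (fun n => [c, a, b, d, y].getD n c) (fun n => [X0, X1, X2, X3, X4, X5, X6, I1, K1, H1, L1].getD n []) [.t 0 false, .w 0, .t 2 false, .w 2, .t 1 false, .w 1, .t 3 false, .w 3, .t 2 true, .w 5])
      (I1 ++ y :: K1 ++ p c :: H1 ++ p y :: L1)
    have h3 := h.trans (by simpa [evs, evl, ev, tk] using h2)
    simpa [evs, evl, ev, tk, cost] using h3
  | b I1 H1 K1 L1 =>
    have h := run_sound (p := p) hinv (fun n => [c, a, b, d, y].getD n c) (fun n => [X0, X1, X2, X3, X4, X5, X6, I1, H1, K1, L1].getD n [])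
      [.th 0 1 4, .th 4 2 0, .th 0 3 4, .th 4 1 0] ([.t 0 false, .w 0, .t 1 false, .w 1, .t 2 false, .w 2, .t 3 false, .w 3, .t 1 true, .w 4, .t 2 true, .w 5, .t 3 true, .w 6], [.w 7, .t 4 false, .w 8, .t 4 true, .w 9, .t 0 true, .w 10]) _ rfl
    have h2 := Chain.rot (p := p) (evl p (fun n => [c, a, b, d, y].getD n c) (fun n => [X0, X1, X2, X3, X4, X5, X6, I1, H1, K1, L1].getD n []) [.t 1 true, .w 4, .t 3 true, .w 6])
      (evl p (fun n => [c, a, b, d, y].getD n c) (fun n => [X0, X1, X2, X3, X4, X5, X6, I1, H1, K1, L1].getD n []) [.t 0 false, .w 0, .t 2 false, .w 2, .t 1 false, .w 1, .t 3 false, .w 3, .t 2 true, .w 5])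
      (I1 ++ y :: H1 ++ p y :: K1 ++ p c :: L1)
    have h3 := h.trans (by simpa [evs, evl, ev, tk] using h2)
    simpa [evs, evl, ev, tk, cost] using h3

/-- red, contents order c :: X0 ++ p b :: X5 ++ b :: X2 ++ a :: X1 ++ p d :: X4 ++ d :: X3 ++ p a :: X6. -/
theorem rrr_nest (hinv : ∀ t, p (p t) = t) (c a b d y : Ω) (X0 X1 X2 X3 X4 X5 X6 B : List Ω) (hB : BY p c y B) :
    Chain p 4 (c :: X0 ++ a :: X1 ++ b :: X2 ++ d :: X3 ++ p d :: X4 ++ p b :: X5 ++ p a :: X6, B)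
      (c :: X0 ++ p b :: X5 ++ b :: X2 ++ a :: X1 ++ p d :: X4 ++ d :: X3 ++ p a :: X6, B) := by
  cases hB with
  | a I1 K1 H1 L1 =>
    have h := run_sound (p := p) hinv (fun n => [c, a, b, d, y].getD n c) (fun n => [X0, X1, X2, X3, X4, X5, X6, I1, K1, H1, L1].getD n [])
      [.th 0 1 4, .th 4 2 0, .th 0 3 4, .th 4 1 0] ([.t 0 false, .w 0, .t 1 false, .w 1, .t 2 false, .w 2, .t 3 false, .w 3, .t 3 true, .w 4, .t 2 true, .w 5, .t 1 true, .w 6], [.w 7, .t 4 false, .w 8, .t 0 true, .w 9, .t 4 true, .w 10]) _ rfl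
    have h2 := Chain.rot (p := p) (evl p (fun n => [c, a, b, d, y].getD n c) (fun n => [X0, X1, X2, X3, X4, X5, X6, I1, K1, H1, L1].getD n []) [.t 1 true, .w 6])
      (evl p (fun n => [c, a, b, d, y].getD n c) (fun n => [X0, X1, X2, X3, X4, X5, X6, I1, K1, H1, L1].getD n []) [.t 0 false, .w 0, .t 2 true, .w 5, .t 2 false, .w 2, .t 1 false, .w 1, .t 3 true, .w 4, .t 3 false, .w 3])
      (I1 ++ y :: K1 ++ p c :: H1 ++ p y :: L1)
    have h3 := h.trans (by simpa [evs, evl, ev, tk] using h2)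
    simpa [evs, evl, ev, tk, cost] using h3
  | b I1 H1 K1 L1 =>
    have h := run_sound (p := p) hinv (fun n => [c, a, b, d, y].getD n c) (fun n => [X0, X1, X2, X3, X4, X5, X6, I1, H1, K1, L1].getD n [])
      [.th 0 1 4, .th 4 2 0, .th 0 3 4, .th 4 1 0] ([.t 0 false, .w 0, .t 1 false, .w 1, .t 2 false, .w 2, .t 3 false, .w 3, .t 3 true, .w 4, .t 2 true, .w 5, .t 1 true, .w 6], [.w 7, .t 4 false, .w 8, .t 4 true, .w 9, .t 0 true, .w 10]) _ rfl
    have h2 := Chain.rot (p := p) (evl p (fun n => [c, a, b, d, y].getD n c) (fun n => [X0, X1, X2, X3, X4, X5, X6, I1, H1, K1, L1].getD n []) [.t 1 true, .w 6])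
      (evl p (fun n => [c, a, b, d, y].getD n c) (fun n => [X0, X1, X2, X3, X4, X5, X6, I1, H1, K1, L1].getD n []) [.t 0 false, .w 0, .t 2 true, .w 5, .t 2 false, .w 2, .t 1 false, .w 1, .t 3 true, .w 4, .t 3 false, .w 3])
      (I1 ++ y :: H1 ++ p y :: K1 ++ p c :: L1)
    have h3 := h.trans (by simpa [evs, evl, ev, tk] using h2)
    simpa [evs, evl, ev, tk, cost] using h3

/-- blue, contents order X0 ++ p b :: X4 ++ p a :: X2 ++ d :: X5 ++ a :: X1 ++ b :: X3 ++ p d :: X6 ++ p c :: X7. -/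
theorem bbb_sep1 (hinv : ∀ t, p (p t) = t) (c x a b d : Ω) (P Q R X0 X1 X2 X3 X4 X5 X6 X7 : List Ω) :
    Chain p 4 (c :: P ++ x :: Q ++ p x :: R, X0 ++ a :: X1 ++ p a :: X2 ++ b :: X3 ++ p b :: X4 ++ d :: X5 ++ p d :: X6 ++ p c :: X7)
      (c :: P ++ x :: Q ++ p x :: R, X0 ++ p b :: X4 ++ p a :: X2 ++ d :: X5 ++ a :: X1 ++ b :: X3 ++ p d :: X6 ++ p c :: X7) := by
  have h := run_sound (p := p) hinv (fun n => [c, x, a, b, d].getD n c) (fun n => [P, Q, R, X0, X1, X2, X3, X4, X5, X6, X7].getD n [])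
    [.th 0 1 3, .th 3 1 2, .th 2 1 4, .th 4 1 0] ([.t 0 false, .w 0, .t 1 false, .w 1, .t 1 true, .w 2], [.w 3, .t 2 false, .w 4, .t 2 true, .w 5, .t 3 false, .w 6, .t 3 true, .w 7, .t 4 false, .w 8, .t 4 true, .w 9, .t 0 true, .w 10]) _ rfl
  have h2 := Chain.rot (p := p) (evl p (fun n => [c, x, a, b, d].getD n c) (fun n => [P, Q, R, X0, X1, X2, X3, X4, X5, X6, X7].getD n []) [.t 1 true, .w 2])
    (evl p (fun n => [c, x, a, b, d].getD n c) (fun n => [P, Q, R, X0, X1, X2, X3, X4, X5, X6, X7].getD n []) [.t 0 false, .w 0, .t 1 false, .w 1])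
    (X0 ++ p b :: X4 ++ p a :: X2 ++ d :: X5 ++ a :: X1 ++ b :: X3 ++ p d :: X6 ++ p c :: X7)
  have h3 := h.trans (by simpa [evs, evl, ev, tk] using h2)
  simpa [evs, evl, ev, tk, cost] using h3

/-- blue, contents order X0 ++ p b :: X4 ++ a :: X1 ++ b :: X3 ++ d :: X5 ++ p a :: X2 ++ p d :: X6 ++ p c :: X7. -/
theorem bbb_sep2 (hinv : ∀ t, p (p t) = t) (c x a b d : Ω) (P Q R X0 X1 X2 X3 X4 X5 X6 X7 : List Ω) :
    Chain p 4 (c :: P ++ x :: Q ++ p x :: R, X0 ++ a :: X1 ++ p a :: X2 ++ b :: X3 ++ p b :: X4 ++ d :: X5 ++ p d :: X6 ++ p c :: X7)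
      (c :: P ++ x :: Q ++ p x :: R, X0 ++ p b :: X4 ++ a :: X1 ++ b :: X3 ++ d :: X5 ++ p a :: X2 ++ p d :: X6 ++ p c :: X7) := by
  have h := run_sound (p := p) hinv (fun n => [c, x, a, b, d].getD n c) (fun n => [P, Q, R, X0, X1, X2, X3, X4, X5, X6, X7].getD n [])
    [.th 0 1 4, .th 4 1 3, .th 3 1 2, .th 2 1 0] ([.t 0 false, .w 0, .t 1 false, .w 1, .t 1 true, .w 2], [.w 3, .t 2 false, .w 4, .t 2 true, .w 5, .t 3 false, .w 6, .t 3 true, .w 7, .t 4 false, .w 8, .t 4 true, .w 9, .t 0 true, .w 10]) _ rfl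
  have h2 := Chain.rot (p := p) (evl p (fun n => [c, x, a, b, d].getD n c) (fun n => [P, Q, R, X0, X1, X2, X3, X4, X5, X6, X7].getD n []) [.t 1 true, .w 2])
    (evl p (fun n => [c, x, a, b, d].getD n c) (fun n => [P, Q, R, X0, X1, X2, X3, X4, X5, X6, X7].getD n []) [.t 0 false, .w 0, .t 1 false, .w 1])
    (X0 ++ p b :: X4 ++ a :: X1 ++ b :: X3 ++ d :: X5 ++ p a :: X2 ++ p d :: X6 ++ p c :: X7)
  have h3 := h.trans (by simpa [evs, evl, ev, tk] using h2)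
  simpa [evs, evl, ev, tk, cost] using h3

/-- blue, contents order X0 ++ b :: X2 ++ a :: X1 ++ d :: X3 ++ p b :: X5 ++ p a :: X4 ++ p d :: X6 ++ p c :: X7. -/
theorem bbb_cross (hinv : ∀ t, p (p t) = t) (c x a b d : Ω) (P Q R X0 X1 X2 X3 X4 X5 X6 X7 : List Ω) :
    Chain p 4 (c :: P ++ x :: Q ++ p x :: R, X0 ++ a :: X1 ++ b :: X2 ++ d :: X3 ++ p a :: X4 ++ p b :: X5 ++ p d :: X6 ++ p c :: X7)
      (c :: P ++ x :: Q ++ p x :: R, X0 ++ b :: X2 ++ a :: X1 ++ d :: X3 ++ p b :: X5 ++ p a :: X4 ++ p d :: X6 ++ p c :: X7) := by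
  have h := run_sound (p := p) hinv (fun n => [c, x, a, b, d].getD n c) (fun n => [P, Q, R, X0, X1, X2, X3, X4, X5, X6, X7].getD n [])
    [.th 0 1 3, .th 3 1 2, .th 2 1 4, .th 4 1 0] ([.t 0 false, .w 0, .t 1 false, .w 1, .t 1 true, .w 2], [.w 3, .t 2 false, .w 4, .t 3 false, .w 5, .t 4 false, .w 6, .t 2 true, .w 7, .t 3 true, .w 8, .t 4 true, .w 9, .t 0 true, .w 10]) _ rfl
  have h2 := Chain.rot (p := p) (evl p (fun n => [c, x, a, b, d].getD n c) (fun n => [P, Q, R, X0, X1, X2, X3, X4, X5, X6, X7].getD n []) [.t 1 true, .w 2])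
    (evl p (fun n => [c, x, a, b, d].getD n c) (fun n => [P, Q, R, X0, X1, X2, X3, X4, X5, X6, X7].getD n []) [.t 0 false, .w 0, .t 1 false, .w 1])
    (X0 ++ b :: X2 ++ a :: X1 ++ d :: X3 ++ p b :: X5 ++ p a :: X4 ++ p d :: X6 ++ p c :: X7)
  have h3 := h.trans (by simpa [evs, evl, ev, tk] using h2)
  simpa [evs, evl, ev, tk, cost] using h3

/-- blue, contents order X0 ++ b :: X2 ++ a :: X1 ++ d :: X3 ++ p c :: X7 ++ p b :: X5 ++ p a :: X4 ++ p d :: X6. -/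
theorem bbb_cross3 (hinv : ∀ t, p (p t) = t) (c x a b d : Ω) (P Q R X0 X1 X2 X3 X4 X5 X6 X7 : List Ω) :
    Chain p 4 (c :: P ++ x :: Q ++ p x :: R, X0 ++ a :: X1 ++ b :: X2 ++ d :: X3 ++ p c :: X7 ++ p a :: X4 ++ p b :: X5 ++ p d :: X6)
      (c :: P ++ x :: Q ++ p x :: R, X0 ++ b :: X2 ++ a :: X1 ++ d :: X3 ++ p c :: X7 ++ p b :: X5 ++ p a :: X4 ++ p d :: X6) := by
  have h := run_sound (p := p) hinv (fun n => [c, x, a, b, d].getD n c) (fun n => [P, Q, R, X0, X1, X2, X3, X7, X4, X5, X6].getD n [])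
    [.th 0 1 3, .th 3 1 2, .th 2 1 4, .th 4 1 0] ([.t 0 false, .w 0, .t 1 false, .w 1, .t 1 true, .w 2], [.w 3, .t 2 false, .w 4, .t 3 false, .w 5, .t 4 false, .w 6, .t 0 true, .w 7, .t 2 true, .w 8, .t 3 true, .w 9, .t 4 true, .w 10]) _ rfl
  have h2 := Chain.rot (p := p) (evl p (fun n => [c, x, a, b, d].getD n c) (fun n => [P, Q, R, X0, X1, X2, X3, X7, X4, X5, X6].getD n []) [.t 1 true, .w 2])
    (evl p (fun n => [c, x, a, b, d].getD n c) (fun n => [P, Q, R, X0, X1, X2, X3, X7, X4, X5, X6].getD n []) [.t 0 false, .w 0, .t 1 false, .w 1])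
    (X0 ++ b :: X2 ++ a :: X1 ++ d :: X3 ++ p c :: X7 ++ p b :: X5 ++ p a :: X4 ++ p d :: X6)
  have h3 := h.trans (by simpa [evs, evl, ev, tk] using h2)
  simpa [evs, evl, ev, tk, cost] using h3

/-- blue, contents order X0 ++ p b :: X5 ++ b :: X2 ++ a :: X1 ++ p d :: X4 ++ d :: X3 ++ p c :: X7 ++ p a :: X6. -/
theorem bbb_nest (hinv : ∀ t, p (p t) = t) (c x a b d : Ω) (P Q R X0 X1 X2 X3 X4 X5 X6 X7 : List Ω) :
    Chain p 4 (c :: P ++ x :: Q ++ p x :: R, X0 ++ a :: X1 ++ b :: X2 ++ d :: X3 ++ p c :: X7 ++ p d :: X4 ++ p b :: X5 ++ p a :: X6)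
      (c :: P ++ x :: Q ++ p x :: R, X0 ++ p b :: X5 ++ b :: X2 ++ a :: X1 ++ p d :: X4 ++ d :: X3 ++ p c :: X7 ++ p a :: X6) := by
  have h := run_sound (p := p) hinv (fun n => [c, x, a, b, d].getD n c) (fun n => [P, Q, R, X0, X1, X2, X3, X7, X4, X5, X6].getD n [])
    [.th 0 1 4, .th 4 1 3, .th 3 1 2, .th 2 1 0] ([.t 0 false, .w 0, .t 1 false, .w 1, .t 1 true, .w 2], [.w 3, .t 2 false, .w 4, .t 3 false, .w 5, .t 4 false, .w 6, .t 0 true, .w 7, .t 4 true, .w 8, .t 3 true, .w 9, .t 2 true, .w 10]) _ rfl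
  have h2 := Chain.rot (p := p) (evl p (fun n => [c, x, a, b, d].getD n c) (fun n => [P, Q, R, X0, X1, X2, X3, X7, X4, X5, X6].getD n []) [.t 1 true, .w 2])
    (evl p (fun n => [c, x, a, b, d].getD n c) (fun n => [P, Q, R, X0, X1, X2, X3, X7, X4, X5, X6].getD n []) [.t 0 false, .w 0, .t 1 false, .w 1])
    (X0 ++ p b :: X5 ++ b :: X2 ++ a :: X1 ++ p d :: X4 ++ d :: X3 ++ p c :: X7 ++ p a :: X6)
  have h3 := h.trans (by simpa [evs, evl, ev, tk] using h2)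
  simpa [evs, evl, ev, tk, cost] using h3

end NTC
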