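import Pool.Agent.helper3.NA.Inv
import Pool.Agent.helper55.NTS.Drop

/-!
# MP_c8d30a, THEOREM (A): the moves of `NA` are the moves of `NTS`; round trips, lifting, certificates

`pa_rt`: a path with at most `n` Theta moves is a round trip of the token states of cost at most `n * m`.
`pa_lift`: lifting of paths of substates. `cert_drop`: certificates give `Drop`.
-/

set_option autoImplicit false

namespace NA

open NTH

universe u
variable {Ω : Type u} {p : Ω → Ω}

theorem EM.pa {k : ℕ} {s t : St Ω} (h : EM p k s t) : Pa p k s t := by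
  simpa using Pa.head h (.refl 0 t)

theorem hop_em {k : ℕ} {s t : St Ω} (h : NTS.Hop p k s t) : EM p k s t := by
  cases h with
  | rot X Y B => exact .rot _ _ _ List.isRotated_append
  | cm x y z P Q R P' Q' R1 R2 => exact .cm x y z P Q R R2 P' Q' R1
  | th1 c x y P Q R S1 S2 G T => exact .th1 c x y P Q R S1 S2 G T
  | th2 c x y P Q R S G T1 T2 => exact .th2 c x y P Q R S T2 G T1

theorem em_hop {k : ℕ} {s t : St Ω} (h : EM p k s t) : NTS.Hop p k s t := by
  cases h with
  | rot A A' B h =>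
    obtain ⟨n, hn⟩ := h
    obtain ⟨X, Y, hX, hY⟩ : ∃ X Y : List Ω, A = X ++ Y ∧ A' = Y ++ X := by
      refine ⟨A.take (n % A.length), A.drop (n % A.length), (List.take_append_drop _ _).symm, ?_⟩
      rw [← hn, List.rotate_eq_drop_append_take_mod]
    rw [hX, hY]
    exact .rot X Y B
  | cm x y z P Q R I P' Q' R' => exact .cm x y z P Q R P' Q' R' I
  | th1 c x y P Q R D E G F => exact .th1 c x y P Q R D E G F
  | th2 c x y P Q R D E G F => exact .th2 c x y P Q R D G F E

theorem chain_pa {k : ℕ} {s t : St Ω} (h : NTS.Chain p k s t) : Pa p k s t := by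
  induction h with
  | refl s => exact .refl _ _
  | step h1 _ ih => exact .head (hop_em h1) ih

theorem pa_chain {n : ℕ} {s t : St Ω} (h : Pa p n s t) : ∃ k ≤ n, NTS.Chain p k s t := by
  induction h with
  | refl n s => exact ⟨0, by omega, .refl s⟩
  | head h1 _ ih =>
    obtain ⟨k, hk, h2⟩ := ih
    exact ⟨_, by omega, .step (em_hop h1) h2⟩

theorem Pa.symm (hinv : ∀ t, p (p t) = t) {n : ℕ} {s t : St Ω} (h : Pa p n s t) : Pa p n t s := by
  obtain ⟨k, hk, h1⟩ := pa_chain h
  exact (chain_pa (h1.symm hinv)).mono hk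

/-- paths are round trips of the token states `(A ++ [p e], e :: B)`. -/
theorem pa_rt (hinv : ∀ t, p (p t) = t) (e : Ω) {n m : ℕ} {s t : St Ω} (h : Pa p n s t)
    (hN : N p (s.1 ++ [p e], e :: s.2)) (hm : (s.1 ++ s.2).length ≤ m) :
    RT p (n * m) (s.1 ++ [p e], e :: s.2) (t.1 ++ [p e], e :: t.2) := by
  obtain ⟨k, hk, h1⟩ := pa_chain h
  exact (h1.real hinv e hN hm).mono (Nat.mul_le_mul_right m hk)

/-- lifting. -/
theorem pa_lift {q : Ω → Bool} {n : ℕ} {s t0 : St Ω} (h : Pa p n (fil q s) t0) : ∃ t, Pa p n s t ∧ fil q t = t0 := by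
  obtain ⟨k, hk, h1⟩ := pa_chain h
  obtain ⟨t, h2, h3⟩ := h1.lift s rfl
  exact ⟨t, (chain_pa h2).mono hk, h3⟩

theorem wf_perm {s t : St Ω} (h : WF p s) (hp : (s.1 ++ s.2).Perm (t.1 ++ t.2)) : WF p t :=
  ⟨hp.nodup_iff.1 h.nd, fun x hx => hp.mem_iff.1 (h.cl x (hp.mem_iff.2 hx)), h.inv, h.ne⟩

theorem wf_fil {q : Ω → Bool} (hq : ∀ t, q (p t) = q t) {s : St Ω} (h : WF p s) : WF p (fil q s) := by
  refine ⟨?_, ?_, h.inv, h.ne⟩
  · have := h.nd.filter q
    simpa [fil, List.filter_append] using this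
  · intro t ht
    have h1 : t ∈ (s.1 ++ s.2).filter q := by simpa [fil, List.filter_append] using ht
    have h2 : p t ∈ (s.1 ++ s.2).filter q := by
      rw [List.mem_filter] at h1 ⊢
      exact ⟨h.cl t h1.1, by rw [hq]; exact h1.2⟩
    simpa [fil, List.filter_append] using h2

section dec

variable [DecidableEq Ω]

theorem mx_swap {s : St Ω} (hw : WF p s) : mx p s = s.2.countP (fun t => decide (p t ∈ s.1)) := by
  unfold mx
  rw [List.countP_eq_length_filter, List.countP_eq_length_filter]
  have h1 : ((s.1.filter (fun t => decide (p t ∈ s.2))).map p).Perm (s.2.filter (fun t => decide (p t ∈ s.1))) := by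
    have hinj : Function.Injective p := fun a b h => by rw [← hw.inv a, h, hw.inv]
    have hnd := List.nodup_append.mp hw.nd
    rw [List.perm_ext_iff_of_nodup ((hnd.1.filter _).map hinj) (hnd.2.1.filter _)]
    intro a
    simp only [List.mem_map, List.mem_filter, decide_eq_true_eq]
    constructor
    · rintro ⟨b, ⟨h1, h2⟩, rfl⟩
      exact ⟨h2, by rw [hw.inv]; exact h1⟩
    · rintro ⟨h1, h2⟩
      exact ⟨p a, ⟨h2, by rw [hw.inv]; exact h1⟩, hw.inv a⟩
  have := h1.length_eq
  rw [List.length_map] at this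
  exact this

theorem D2_mx {s : St Ω} (hw : WF p s) : NTS.D2 p s + 2 * mx p s = (s.1 ++ s.2).length := by
  classical
  have hdis : ∀ t, t ∈ s.1 → t ∈ s.2 → False := by
    intro t h1 h2
    exact (List.nodup_append.mp hw.nd).2.2 t h1 t h2 rfl
  have h1 : s.1.countP (fun t => decide (p t ∈ s.1)) + s.1.countP (fun t => decide (p t ∈ s.2)) = s.1.length := by
    rw [List.length_eq_countP_add_countP (fun t => decide (p t ∈ s.1)) (l := s.1)]
    congr 1
    apply List.countP_congr
    intro t ht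
    simp only [decide_eq_true_eq]
    constructor
    · intro h1 h2
      exact hdis _ h2 h1
    · intro h1
      have := hw.cl t (List.mem_append_left _ ht)
      rcases List.mem_append.mp this with h | h
      · exact absurd h h1
      · exact h
  have h2 : s.2.countP (fun t => decide (p t ∈ s.2)) + s.2.countP (fun t => decide (p t ∈ s.1)) = s.2.length := by
    rw [List.length_eq_countP_add_countP (fun t => decide (p t ∈ s.2)) (l := s.2)]
    congr 1
    apply List.countP_congr
    intro t ht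
    simp only [decide_eq_true_eq]
    constructor
    · intro h1 h2
      exact hdis _ h1 h2
    · intro h1
      have := hw.cl t (List.mem_append_right _ ht)
      rcases List.mem_append.mp this with h | h
      · exact h
      · exact absurd h h1
  have h3 := mx_swap hw
  have h4 : NTS.D2 p s = s.1.countP (fun t => decide (p t ∈ s.1)) + s.2.countP (fun t => decide (p t ∈ s.2)) := by
    unfold NTS.D2
    congr 1 <;>
    · apply List.countP_congr
      intro t _
      simp
  have h5 : mx p s = s.1.countP (fun t => decide (p t ∈ s.2)) := rfl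
  rw [List.length_append]
  omega

theorem drop_of {k n d : ℕ} {s t : St Ω} (hw : WF p s) (h : NTS.Chain p k s t) (hk : k ≤ n) (hd : 0 < d)
    (h2 : NTS.D2 p t + d ≤ NTS.D2 p s) : Drop p n s := by
  refine ⟨t, (chain_pa h).mono hk, ?_⟩
  have e1 := D2_mx hw
  have e2 := D2_mx (wf_perm hw h.perm)
  have e3 := h.perm.length_eq
  omega

/-- certificates. -/
theorem cert_drop {s : St Ω} (hw : WF p s) (τ : ℕ → Ω) (β : ℕ → List Ω) (d : ℕ) (l : List NTS.Mv) (s0 s1 : NTS.Sym)
    (e : s = NTS.evs p τ β s0) (h : NTS.run l s0 = some s1) (hc : NTS.chkD (d + 1) s0 s1 = true) {n : ℕ} (hn : NTS.cost l ≤ n) :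
    Drop p n s := by
  subst e
  obtain ⟨h1, h2⟩ := NTS.cert hw.inv τ β (d + 1) l s0 s1 h hc hw.nd
  exact drop_of hw h1 hn (by omega) h2

theorem Drop.mono {m n : ℕ} {s : St Ω} (h : Drop p m s) (hmn : m ≤ n) : Drop p n s := by
  obtain ⟨t, h1, h2⟩ := h
  exact ⟨t, h1.mono hmn, h2⟩

theorem mx_len {s : St Ω} (hw : WF p s) : 2 * mx p s ≤ (s.1 ++ s.2).length := by
  have := D2_mx hw
  omega

/-- lifting of drops: deleted letters are one sided. -/
theorem drop_lift {q : Ω → Bool} (hq : ∀ t, q (p t) = q t) {n : ℕ} {s : St Ω} (hw : WF p s)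
    (hm : ∀ t, q t = false → (t ∈ s.1 → p t ∈ s.1) ∧ (t ∈ s.2 → p t ∈ s.2)) (h : Drop p n (fil q s)) : Drop p n s := by
  obtain ⟨t0, h1, h2⟩ := h
  obtain ⟨k, hk, h3⟩ := pa_chain h1
  have hw0 := wf_fil hq hw
  have e1 := D2_mx hw0
  have e2 := D2_mx (wf_perm hw0 h3.perm)
  have e3 := h3.perm.length_eq
  obtain ⟨t, h4, -, h6⟩ := NTS.drop_lift (p := p) (K := q) (d := 1) hq (s := s) h3 (by
    change NTS.D2 p t0 + 1 ≤ NTS.D2 p (fil q s)
    omega) hm
  exact drop_of hw h4 hk (by omega) h6

end dec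

end NA
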