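import Pool.Agent.helper55.NA.Cert

/-!
# MP_c8d30a, THEOREM (A): certificate `PA`, the interface structures `DrC`, `RedC`, `BlueC` for `NA.Drop p 30`
-/

set_option autoImplicit false

namespace NTC

open NTH NTS

universe u
variable {Ω : Type u} [DecidableEq Ω] {p : Ω → Ω}

theorem bluePA (hinv : ∀ t, p (p t) = t) (hne : ∀ t, p t ≠ t) (a d x u v : Ω) (P Q : List Ω)
    (hg : Gd p (x :: p x :: a :: P ++ [d], u :: v :: p v :: p u :: p a :: Q ++ [p d]))
    (h1 : ∀ t ∈ P, p t ∈ Q) (h2 : ∀ t ∈ Q, p t ∈ P) :
    NA.Drop p 30 (x :: p x :: a :: P ++ [d], u :: v :: p v :: p u :: p a :: Q ++ [p d]) := by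
  have hw : WF p (x :: p x :: a :: P ++ [d], u :: v :: p v :: p u :: p a :: Q ++ [p d]) := ⟨hg.nd, hg.cl, hinv, hne⟩
  have e : ((x :: p x :: a :: P ++ [d], u :: v :: p v :: p u :: p a :: Q ++ [p d]) : St Ω) =
      evs p (fun n => [x, a, d, u, v].getD n x) (fun n => [P, Q].getD n [])
      ([.t 0 false, .t 0 true, .t 1 false, .w 0, .t 2 false], [.t 3 false, .t 4 false, .t 4 true, .t 3 true, .t 1 true, .w 1, .t 2 true]) := by
    simp [evs, tk]
  have hc := run_sound (p := p) hinv (fun n => [x, a, d, u, v].getD n x) (fun n => [P, Q].getD n [])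
    [.th 1 0 3, .th 3 0 2, .th 2 0 4]
    ([.t 0 false, .t 0 true, .t 1 false, .w 0, .t 2 false], [.t 3 false, .t 4 false, .t 4 true, .t 3 true, .t 1 true, .w 1, .t 2 true])
    ([.t 0 false, .t 4 true, .t 1 true, .w 1, .t 3 true, .t 0 true], [.t 1 false, .w 0, .t 3 false, .t 2 false, .t 4 false, .t 2 true]) rfl
  rw [← e] at hc
  refine NA.drop_of (d := 2) hw hc (by decide) (by omega) ?_
  have hnd1 := hc.perm.nodup_iff.mp hw.nd
  rw [D2_evs hinv (by decide) hnd1]
  rw [e, D2_evs hinv (by decide) (by rw [← e]; exact hw.nd)]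
  have hPQ : ∀ t, t ∈ P → t ∈ Q → False := by
    intro t h3 h4
    have := hw.nd
    simp only [List.nodup_append, List.cons_append, List.nodup_cons, List.mem_append, List.mem_cons] at this
    have h5 := List.nodup_iff_count_le_one.mp hw.nd t
    simp only [List.count_append, List.count_cons] at h5
    have := List.count_pos_iff.mpr h3
    have := List.count_pos_iff.mpr h4
    omega
  have e1 : D2 p (bw (fun n => [P, Q].getD n []) [.t 0 false, .t 4 true, .t 1 true, .w 1, .t 3 true, .t 0 true],
      bw (fun n => [P, Q].getD n []) [.t 1 false, .w 0, .t 3 false, .t 2 false, .t 4 false, .t 2 true]) = 0 := by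
    have : (bw (fun n => [P, Q].getD n []) [.t 0 false, .t 4 true, .t 1 true, .w 1, .t 3 true, .t 0 true],
      bw (fun n => [P, Q].getD n []) [.t 1 false, .w 0, .t 3 false, .t 2 false, .t 4 false, .t 2 true]) = (Q, P) := by
      simp [bw, wds]
    rw [this]
    unfold D2
    simp only
    refine Nat.add_eq_zero_iff.mpr ⟨?_, ?_⟩
    · rw [List.countP_eq_zero]
      intro t ht
      simp only [decide_eq_true_eq]
      exact fun h5 => hPQ _ (h2 t ht) h5
    · rw [List.countP_eq_zero]
      intro t ht
      simp only [decide_eq_true_eq]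
      exact fun h5 => hPQ _ h5 (h1 t ht)
  have e2 : d2s ([.t 0 false, .t 4 true, .t 1 true, .w 1, .t 3 true, .t 0 true], [.t 1 false, .w 0, .t 3 false, .t 2 false, .t 4 false, .t 2 true]) + 2 ≤
      d2s ([.t 0 false, .t 0 true, .t 1 false, .w 0, .t 2 false], [.t 3 false, .t 4 false, .t 4 true, .t 3 true, .t 1 true, .w 1, .t 2 true]) := by
    decide
  simp only at e1 e2 ⊢
  omega

theorem blueC (hinv : ∀ t, p (p t) = t) (hne : ∀ t, p t ≠ t) : BlueC p (NA.Drop p 30) where
  K' := blueK hinv hne
  N3' := blueN3' hinv hne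
  D3' := blueD3' hinv hne
  P1 := blueP1 hinv hne
  AL := blueAL hinv hne
  GA := blueGA hinv hne
  DE1 := blueDE1 hinv hne
  DE2 := blueDE2 hinv hne
  PA := bluePA hinv hne

theorem mx_perm {s t : St Ω} (h1 : s.1.Perm t.1) (h2 : s.2.Perm t.2) : NA.mx p s = NA.mx p t := by
  unfold NA.mx
  rw [h1.countP_eq]
  apply List.countP_congr
  intro a _
  simp only [decide_eq_true_eq, h2.mem_iff]

theorem drC (hinv : ∀ t, p (p t) = t) (hne : ∀ t, p t ≠ t) : DrC p (NA.Drop p 30) where
  rot := by
    intro X Y B _ h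
    obtain ⟨t, h1, h2⟩ := h
    refine ⟨t, ?_, ?_⟩
    · have := (NA.EM.rot (p := p) (Y ++ X) (X ++ Y) B List.isRotated_append).pa.trans h1
      simpa using this
    · have h3 : NA.mx p ((Y ++ X, B) : St Ω) = NA.mx p ((X ++ Y, B) : St Ω) :=
        mx_perm (s := (Y ++ X, B)) (t := (X ++ Y, B)) List.perm_append_comm (List.Perm.refl _)
      exact lt_of_eq_of_lt h3 h2
  lift := by
    intro z A B hg hz hm h
    refine NA.drop_lift hz ⟨hg.nd, hg.cl, hinv, hne⟩ ?_ h
    intro t ht
    constructor
    · intro h1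
      have h2 := hg.cl t (List.mem_append_left _ h1)
      rcases List.mem_append.mp h2 with h3 | h3
      · exact h3
      · have := hm t h1 h3
        rw [this] at ht
        exact absurd ht (by simp)
    · intro h1
      have h2 := hg.cl t (List.mem_append_right _ h1)
      rcases List.mem_append.mp h2 with h3 | h3
      · have := hm (p t) h3 (by rw [hinv]; exact h1)
        rw [hz, ht] at this
        exact absurd this (by simp)
      · exact h3
  cm := by
    intro a b c P Q R D P' Q' R' _ h
    obtain ⟨t, h1, h2⟩ := h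
    refine ⟨t, ?_, ?_⟩
    · have := (NA.EM.cm (p := p) a b c P Q R D P' Q' R').pa.trans (by simpa using h1)
      simpa using this
    · refine lt_of_eq_of_lt (mx_perm ?_ ?_) h2
      · rw [List.perm_iff_count]
        intro z
        simp only [List.count_append, List.count_cons, List.cons_append]
        omega
      · rw [List.perm_iff_count]
        intro z
        simp only [List.count_append, List.count_cons, List.cons_append]
        omega

end NTC
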