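import Pool.Agent.helper55.NA.HA
import Pool.Agent.helper2.NA.UNR
import Pool.Agent.helper3.NA.DLX
import Pool.Agent.helper3.NA.BWKf
import Pool.Agent.helper32.RW.Main
import Pool.Agent.helper36.NA.KF

/-!
# MP_c8d30a, THEOREM (A), unconditional
-/

set_option autoImplicit false

namespace NA

open NTH

/-- **the red walk.** -/
theorem RWK_thm : NAW.RWK_stmt := NAW.RWK NAW.UNR NAW.KRF NAW.DLX

/-- **the blue walk.** -/
theorem BWK_thm : NAW.BWK_stmt := NAW.BWKf NAW.UNB

/-- **THE STEP THEOREM.** -/
theorem AStep_thm : AStep_stmt.{0} := astep RWK_thm BWK_thm (NTC.ISOB NTC.NEST)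

/-- **THEOREM (A).** -/
theorem A_all : A_stmt.{0} := A_final AStep_thm

/-- **(A)** in the form of the counting part. -/
theorem HA_all : HA 1200 (fun m => m * (10 * m + 30) * m) := HA_of_A A_all

/-- the bound for irreducible two sided states. -/
theorem TB_all : TB (FB 1200 (fun m => m * (10 * m + 30) * m)) := TBF HA_all

end NA
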