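import Pool.Agent.helper55.NA.Br
import Pool.Agent.helper3.NTH.AH

/-!
# MP_c8d30a, THEOREM (A), last step: iteration of the step theorem, from double standard states to states with few coloured letters
-/

set_option autoImplicit false

namespace NA

open NTH

universe u
variable {Ω : Type u} {p : Ω → Ω}

/-- THE STEP: more than 600 coloured letters: their number drops with at most `10 m + 30` Theta moves. -/
def AStep_stmt : Prop := ∀ (Ω : Type u) [DecidableEq Ω] (p : Ω → Ω) (s : St Ω), WF p s → IrB p s →
  (∃ t, Red p s t) → (∃ t, Blu p s t) → 1200 < NTS.D2 p s → Drop p (10 * (s.1 ++ s.2).length + 30) s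

/-- THEOREM (A): every double standard state has a round trip of polynomial cost to an S-state with at most 600 coloured letters. -/
def A_stmt : Prop := ∀ (Ω : Type u) (p : Ω → Ω) (s : St Ω), WF p s → DS p s →
  ∃ (e : Ω) (A B : List Ω), RT p ((s.1 ++ s.2).length * (10 * (s.1 ++ s.2).length + 30) * (s.1 ++ s.2).length) s (A ++ [p e], e :: B) ∧
    WF p (A, B) ∧ IrB p (A, B) ∧ NTS.D2 p (A ++ [p e], e :: B) ≤ 1200

/-- red and blue letters are kept. -/
theorem EM.rb {k : ℕ} {s t : St Ω} (h : EM p k s t) (hr : ∃ o, Red p s o) (hb : ∃ o, Blu p s o) :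
    (∃ o, Red p t o) ∧ (∃ o, Blu p t o) := by
  cases h with
  | rot A A' B h =>
    obtain ⟨o, h1, h2⟩ := hr
    exact ⟨⟨o, h.perm.mem_iff.1 h1, h.perm.mem_iff.1 h2⟩, hb⟩
  | cm x y z P Q R I P' Q' R' =>
    obtain ⟨o, h1, h2⟩ := hr
    obtain ⟨o', h3, h4⟩ := hb
    refine ⟨⟨o, ?_, ?_⟩, ⟨o', ?_, ?_⟩⟩
    · simp only [List.mem_cons, List.mem_append] at h1 ⊢
      tauto
    · simp only [List.mem_cons, List.mem_append] at h2 ⊢
      tauto
    · simp only [List.mem_cons, List.mem_append] at h3 ⊢
      tauto
    · simp only [List.mem_cons, List.mem_append] at h4 ⊢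
      tauto
  | th1 c x y P Q R D E G F => exact ⟨⟨x, by simp, by simp⟩, ⟨c, by simp, by simp⟩⟩
  | th2 c x y P Q R D E G F => exact ⟨⟨x, by simp, by simp⟩, ⟨c, by simp, by simp⟩⟩

theorem Pa.rb {n : ℕ} {s t : St Ω} (h : Pa p n s t) (hr : ∃ o, Red p s o) (hb : ∃ o, Blu p s o) :
    (∃ o, Red p t o) ∧ (∃ o, Blu p t o) := by
  induction h with
  | refl _ _ => exact ⟨hr, hb⟩
  | head h _ ih =>
    obtain ⟨h1, h2⟩ := h.rb hr hb
    exact ih h1 h2

theorem iter [DecidableEq Ω] (hS : AStep_stmt.{u}) (L : ℕ) : ∀ (n : ℕ) (s : St Ω), WF p s → IrB p s → (∃ t, Red p s t) → (∃ t, Blu p s t) →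
    (s.1 ++ s.2).length = L → NTS.D2 p s ≤ n → ∃ t, Pa p (n * (10 * L + 30)) s t ∧ NTS.D2 p t ≤ 1200 := by
  intro n
  induction n with
  | zero =>
    intro s _ _ _ _ _ h
    exact ⟨s, .refl _ _, by omega⟩
  | succ n ih =>
    intro s hw hi hr hb hL hn
    by_cases hD : NTS.D2 p s ≤ 1200
    · exact ⟨s, .refl _ _, hD⟩
    · obtain ⟨t, h1, h2⟩ := hS Ω p s hw hi hr hb (by omega)
      rw [hL] at h1
      have hwt := h1.wf hw
      have e1 := D2_mx hw
      have e2 := D2_mx hwt
      have e3 := h1.perm.length_eq
      obtain ⟨hr', hb'⟩ := h1.rb hr hb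
      obtain ⟨v, h3, h4⟩ := ih t hwt (h1.ir hw hi) hr' hb' (by rw [← e3]; exact hL) (by omega)
      refine ⟨v, (h1.trans h3).mono ?_, h4⟩
      have : (n + 1) * (10 * L + 30) = (10 * L + 30) + n * (10 * L + 30) := by ring
      omega

theorem D2_real (hinv : ∀ t, p (p t) = t) (hne : ∀ t, p t ≠ t) {e : Ω} {A B : List Ω} (hw : WF p (A ++ [p e], e :: B)) :
    NTS.D2 p (A ++ [p e], e :: B) = NTS.D2 p (A, B) := by
  classical
  have hc : ∀ x, A.count x + (if (p e == x) = true then 1 else 0) + ((if (e == x) = true then 1 else 0) + B.count x) ≤ 1 := by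
    intro x
    have := List.nodup_iff_count_le_one.mp hw.nd x
    simp only [List.count_append, List.count_cons, List.count_nil] at this
    omega
  have heA : e ∉ A := by
    intro h
    have h1 := hc e
    have := List.count_pos_iff.mpr h
    simp at h1
    omega
  have hpB : p e ∉ B := by
    intro h
    have h1 := hc (p e)
    have := List.count_pos_iff.mpr h
    simp at h1
    omega
  have hpA : p e ∉ A := by
    intro h
    have h1 := hc (p e)
    have := List.count_pos_iff.mpr h
    simp at h1
    omega
  have heB : e ∉ B := by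
    intro h
    have h1 := hc e
    have := List.count_pos_iff.mpr h
    simp at h1
    omega
  unfold NTS.D2
  simp only [List.countP_append, List.countP_cons, List.countP_nil, List.mem_append, List.mem_cons, List.not_mem_nil, or_false,
    decide_eq_true_eq]
  have h1 : A.countP (fun t => decide (p t ∈ A ∨ p t = p e)) = A.countP (fun t => decide (p t ∈ A)) := by
    apply List.countP_congr
    intro t ht
    simp only [decide_eq_true_eq]
    constructor
    · rintro (h | h)
      · exact h
      · exfalso
        have : t = e := by rw [← hinv t, h, hinv]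
        exact heA (this ▸ ht)
    · exact Or.inl
  have h2 : B.countP (fun t => decide (p t = e ∨ p t ∈ B)) = B.countP (fun t => decide (p t ∈ B)) := by
    apply List.countP_congr
    intro t ht
    simp only [decide_eq_true_eq]
    constructor
    · rintro (h | h)
      · exfalso
        have : t = p e := by rw [← h, hinv]
        exact hpB (this ▸ ht)
      · exact h
    · exact Or.inr
  rw [h1, h2]
  have h3 : ¬ (p (p e) ∈ A ∨ p (p e) = p e) := by
    rw [hinv]
    rintro (h | h)
    · exact heA h
    · exact hne e h.symm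
  have h4 : ¬ (p e = e ∨ p e ∈ B) := by
    rintro (h | h)
    · exact hne e h
    · exact hpB h
  simp [h3, h4]

/-- **THEOREM (A)** from the step theorem. -/
theorem A_final (hS : AStep_stmt.{u}) : A_stmt.{u} := by
  classical
  intro Ω p s hw hd
  obtain ⟨f, e, X, Y, rfl, ⟨b, hb1, hb2⟩, ⟨q, hq1, hq2⟩⟩ := hd
  have hinv := hw.inv
  have hne := hw.ne
  have hs : Fm p f e X [] Y [] = ((f :: X) ++ [p e], e :: (Y ++ [p f])) := by simp [Fm]
  rw [hs] at hw ⊢
  have hc := List.nodup_iff_count_le_one.mp hw.nd
  -- the pair is well formed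
  have hw1 : WF p (f :: X, Y ++ [p f]) := by
    refine ⟨?_, ?_, hinv, hne⟩
    · rw [List.nodup_iff_count_le_one]
      intro x
      have := hc x
      simp only [List.count_append, List.count_cons, List.count_nil] at this ⊢
      omega
    · intro t ht
      have h1 : t ∈ ((f :: X) ++ [p e]) ++ (e :: (Y ++ [p f])) := by
        simp only [List.mem_append, List.mem_cons, List.not_mem_nil, or_false] at ht ⊢
        tauto
      have h2 := hw.cl t h1
      have h3 : p t ≠ e := by
        intro h
        have : t = p e := by rw [← h, hinv]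
        subst this
        have h4 := hc (p e)
        simp only [List.mem_append, List.mem_cons, List.not_mem_nil, or_false] at ht
        simp only [List.count_append, List.count_cons, List.count_nil] at h4
        rcases ht with (ht | ht) | (ht | ht)
        · simp [← ht] at h4
          try omega
        · have := List.count_pos_iff.mpr ht
          simp at h4
          omega
        · have := List.count_pos_iff.mpr ht
          simp at h4
          omega
        · simp [← ht] at h4
          try omega
      have h5 : p t ≠ p e := by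
        intro h
        have : t = e := by rw [← hinv t, h, hinv]
        subst this
        have h4 := hc t
        simp only [List.mem_append, List.mem_cons, List.not_mem_nil, or_false] at ht
        simp only [List.count_append, List.count_cons, List.count_nil] at h4
        rcases ht with (ht | ht) | (ht | ht)
        · simp [← ht] at h4
          try omega
        · have := List.count_pos_iff.mpr ht
          simp at h4
          omega
        · have := List.count_pos_iff.mpr ht
          simp at h4
          omega
        · simp [← ht] at h4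
          try omega
      simp only [List.mem_append, List.mem_cons, List.not_mem_nil, or_false] at h2 ⊢
      tauto
  have hir : IrB p (f :: X, Y ++ [p f]) := by
    intro B1 B2 hB hcl
    by_contra hne2
    obtain ⟨W, w, rfl⟩ := List.eq_nil_or_concat B2 |>.resolve_left hne2
    have h1 : w = p f := by
      have := congrArg List.getLast? hB
      simp at this
      exact this.symm
    have h2 := hcl w (by simp)
    rw [h1, hinv] at h2
    have h3 : f ∈ Y ++ [p f] := by
      have : f ∈ B1 ++ (W ++ [w]) := List.mem_append_right _ (by rw [h1]; simpa using h2)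
      have hB' : Y ++ [p f] = B1 ++ (W ++ [w]) := by simpa using hB
      rw [hB']
      exact this
    have h4 := (List.nodup_append.mp hw1.nd).2.2 f (by simp) f h3
    exact h4 rfl
  obtain ⟨t, h1, h2⟩ := iter hS ((f :: X) ++ (Y ++ [p f])).length (NTS.D2 p (f :: X, Y ++ [p f])) (f :: X, Y ++ [p f]) hw1 hir
    ⟨b, by simp [hb1], by simp [hb2]⟩ ⟨q, by simp [hq1], by simp [hq2]⟩ rfl le_rfl
  obtain ⟨A, B⟩ := t
  have hN : N p ((f :: X) ++ [p e], e :: (Y ++ [p f])) :=
    ⟨⟨b, by simp [hb1], by simp [hb2]⟩, ⟨q, by simp [hq1], by simp [hq2]⟩⟩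
  have h3 := pa_rt (m := ((f :: X) ++ (Y ++ [p f])).length) hinv e h1 hN le_rfl
  refine ⟨e, A, B, h3.mono ?_, h1.wf hw1, h1.ir hw1 hir, ?_⟩
  · have e1 := NTS.D2_le (p := p) (f :: X, Y ++ [p f])
    have e2 : ((f :: X) ++ (Y ++ [p f])).length ≤ ((((f :: X) ++ [p e], e :: (Y ++ [p f])) : St Ω).1 ++
        (((f :: X) ++ [p e], e :: (Y ++ [p f])) : St Ω).2).length := by
      simp only [List.length_append, List.length_cons, List.length_nil]
      omega
    exact Nat.mul_le_mul (Nat.mul_le_mul (e1.trans e2) (by omega)) e2
  · have hw2 : WF p (A ++ [p e], e :: B) := hw.reach h3.1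
    rw [D2_real hinv hne hw2]
    exact h2

end NA
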