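import Pool.Agent.helper36.NA.SpecW
import Pool.Agent.helper3.NA.StepH2
import Pool.Agent.helper55.NA.Cert2
import Pool.Agent.helper55.NA.AFin
import Pool.Agent.helper65.NTC.ISOR
import Pool.Agent.helper65.NTC.ISOB
import Pool.Agent.helper51.NTC.NEST

/-!
# MP_c8d30a, THEOREM (A): the assembly of the step theorem from ISOR, ISOB and the two walks
-/

set_option autoImplicit false

namespace NA

open NTH

theorem filter_adj {α : Type} {q : α → Bool} {L X Y : List α} {g t : α} (h : L.filter q = X ++ g :: t :: Y) :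
    ∃ U V W, L = U ++ g :: (V ++ t :: W) ∧ ∀ m ∈ V, q m = false := by
  rw [List.filter_eq_append_iff] at h
  obtain ⟨L1, L2, rfl, h1, h2⟩ := h
  rw [List.filter_eq_cons_iff] at h2
  obtain ⟨L3, L4, rfl, h3, h4, h5⟩ := h2
  rw [List.filter_eq_cons_iff] at h5
  obtain ⟨L5, L6, rfl, h6, h7, h8⟩ := h5
  refine ⟨L1 ++ L3, L5, L6, by simp, ?_⟩
  intro m hm
  simpa using h6 m hm

theorem filter_pt {α : Type} {q : α → Bool} {L X Y : List α} {t : α} (h : L.filter q = X ++ t :: Y) :
    ∃ U W, L = U ++ t :: W ∧ X = U.filter q ∧ Y = W.filter q := by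
  rw [List.filter_eq_append_iff] at h
  obtain ⟨L1, L2, rfl, h1, h2⟩ := h
  rw [List.filter_eq_cons_iff] at h2
  obtain ⟨L3, L4, rfl, h3, h4, h5⟩ := h2
  refine ⟨L1 ++ L3, L4, by simp, ?_, h5.symm⟩
  rw [List.filter_append, h1]
  have : L3.filter q = [] := by
    rw [List.filter_eq_nil_iff]
    exact h3
  rw [this, List.append_nil]

theorem exists_first {α : Type} {P : α → Prop} : ∀ {L : List α}, (∃ t ∈ L, P t) → ∃ I y J, L = I ++ y :: J ∧ P y ∧ ∀ t ∈ I, ¬ P t := by
  classical
  intro L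
  induction L with
  | nil => rintro ⟨t, ht, _⟩; simp at ht
  | cons a L ih =>
    rintro ⟨t, ht, h⟩
    by_cases ha : P a
    · exact ⟨[], a, L, rfl, ha, by simp⟩
    · have : ∃ t ∈ L, P t := by
        rcases List.mem_cons.mp ht with rfl | ht
        · exact absurd h ha
        · exact ⟨t, ht, h⟩
      obtain ⟨I, y, J, rfl, h1, h2⟩ := ih this
      refine ⟨a :: I, y, J, rfl, h1, ?_⟩
      intro t ht
      rcases List.mem_cons.mp ht with rfl | ht
      · exact ha
      · exact h2 t ht

variable {Ω : Type} [DecidableEq Ω] {p : Ω → Ω}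

theorem drop_rot {n : ℕ} {X Y B : List Ω} (h : Drop p n (X ++ Y, B)) : Drop p n (Y ++ X, B) := by
  obtain ⟨t, h1, h2⟩ := h
  refine ⟨t, ?_, ?_⟩
  · have := (EM.rot (p := p) (Y ++ X) (X ++ Y) B List.isRotated_append).pa.trans h1
    simpa using this
  · have h3 : mx p ((Y ++ X, B) : St Ω) = mx p ((X ++ Y, B) : St Ω) :=
      NTC.mx_perm (s := (Y ++ X, B)) (t := (X ++ Y, B)) List.perm_append_comm (List.Perm.refl _)
    exact lt_of_eq_of_lt h3 h2

/-- the tokens of a family and their partners. -/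
theorem fam_card (hinv : ∀ t, p (p t) = t) {F : List Ω} (h1 : F.Nodup) (h2 : ∀ t ∈ F, p t ∉ F) :
    (F ++ F.map p).toFinset.card = 2 * F.length := by
  rw [List.toFinset_card_of_nodup]
  · simp
    omega
  · rw [List.nodup_append]
    have hinj : Function.Injective p := fun a b h => by rw [← hinv a, h, hinv]
    refine ⟨h1, h1.map hinj, ?_⟩
    rintro a ha b hb rfl
    obtain ⟨c, hc, rfl⟩ := List.mem_map.mp hb
    exact h2 c hc ha

theorem fam_mem (hinv : ∀ t, p (p t) = t) {F : List Ω} (t : Ω) : t ∈ (F ++ F.map p).toFinset ↔ (t ∈ F ∨ p t ∈ F) := by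
  rw [List.mem_toFinset, List.mem_append, List.mem_map]
  constructor
  · rintro (h | ⟨a, h, rfl⟩)
    · exact Or.inl h
    · exact Or.inr (by rw [hinv]; exact h)
  · rintro (h | h)
    · exact Or.inl h
    · exact Or.inr ⟨p t, h, hinv t⟩

/-- **the red case.** -/
theorem red_step (hRW : NAW.RWK_stmt) {s : St Ω} (hw : WF p s) (hir : IrB p s)
    (hr : ∃ R : List Ω, R.Nodup ∧ 580 ≤ R.length ∧ ∀ t ∈ R, t ∈ s.1 ∧ p t ∈ s.1) (hb : ∃ t, Blu p s t) :
    Drop p (10 * (s.1 ++ s.2).length + 30) s := by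
  obtain ⟨A0, B⟩ := s
  have hinv := hw.inv
  have hne := hw.ne
  have hdis : ∀ t, t ∈ A0 → t ∈ B → False := fun t h1 h2 => (List.nodup_append.mp hw.nd).2.2 t h1 t h2 rfl
  obtain ⟨y0, hy0, hy0'⟩ := hb
  obtain ⟨I, y, J, hB, hy, hI⟩ := exists_first (P := fun t => p t ∈ B) (L := B) ⟨y0, hy0, hy0'⟩
  have hyB : y ∈ B := by rw [hB]; simp
  have hyJ : p y ∈ J := by
    have h1 : p y ∈ I ++ y :: J := hB ▸ hy
    rcases List.mem_append.mp h1 with h | h
    · exact absurd (by rw [hinv]; exact hyB) (hI _ h)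
    · rcases List.mem_cons.mp h with h | h
      · exact absurd h (hne y)
      · exact h
  obtain ⟨c', hc', hc'A⟩ : ∃ c' ∈ J, p c' ∈ A0 := by
    by_contra hno
    push Not at hno
    have := hir I (y :: J) hB (by
      intro t ht
      rcases List.mem_cons.mp ht with rfl | ht
      · exact List.mem_cons_of_mem _ hyJ
      · have h1 : t ∈ A0 ++ B := by
          rw [hB]
          simp [ht]
        have h2 := hw.cl t h1
        have h3 : p t ∈ B := by
          rcases List.mem_append.mp h2 with h | h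
          · exact absurd h (hno t ht)
          · exact h
        have h4 : p t ∈ I ++ y :: J := hB ▸ h3
        rcases List.mem_append.mp h4 with h | h
        · refine absurd ?_ (hI _ h)
          change p (p t) ∈ B
          rw [hinv, hB]
          simp [ht]
        · exact h)
    simp at this
  have hBY : NTC.BY p (p c') y B := by
    obtain ⟨J1, J2, rfl⟩ := List.append_of_mem hc'
    have h1 : p y ∈ J1 ∨ p y ∈ J2 := by
      rcases List.mem_append.mp hyJ with h | h
      · exact Or.inl h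
      · rcases List.mem_cons.mp h with h | h
        · exfalso
          have : y = p c' := by rw [← h, hinv]
          exact hdis y (this ▸ hc'A) hyB
        · exact Or.inr h
    rcases h1 with h | h
    · obtain ⟨K1, K2, rfl⟩ := List.append_of_mem h
      have := NTC.BY.b (p := p) (c := p c') (y := y) I K1 K2 J2
      rw [hinv] at this
      rw [hB]
      simpa using this
    · obtain ⟨K1, K2, rfl⟩ := List.append_of_mem h
      have := NTC.BY.a (p := p) (c := p c') (y := y) I J1 K1 K2
      rw [hinv] at this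
      rw [hB]
      simpa using this
  obtain ⟨A1, A2, hA⟩ := List.append_of_mem hc'A
  subst hA
  -- rotate
  have hlen : ((A1 ++ p c' :: A2) ++ B).length = ((p c' :: A2 ++ A1) ++ B).length := by
    simp only [List.length_append, List.length_cons]
    omega
  have hperm : ((A1 ++ p c' :: A2) ++ B).Perm ((p c' :: A2 ++ A1) ++ B) := List.Perm.append_right _ List.perm_append_comm
  have hw1 : WF p ((p c' :: A2 ++ A1, B) : St Ω) := wf_perm hw hperm
  suffices H : Drop p (10 * ((p c' :: (A2 ++ A1)) ++ B).length + 30) ((p c' :: (A2 ++ A1), B) : St Ω) by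
    have H2 : Drop p (10 * ((p c' :: A2 ++ A1) ++ B).length + 30) ((p c' :: A2 ++ A1, B) : St Ω) := H
    rw [← hlen] at H2
    exact drop_rot H2
  obtain ⟨A, hA⟩ : ∃ A, A = A2 ++ A1 := ⟨_, rfl⟩
  have hw1 : WF p ((p c' :: A, B) : St Ω) := by rw [hA]; exact hw1
  have hdis : ∀ t, t ∈ p c' :: A → t ∈ B → False := fun t h1 h2 => (List.nodup_append.mp hw1.nd).2.2 t h1 t h2 rfl
  have hmem : ∀ t, t ∈ A1 ++ p c' :: A2 ↔ t ∈ p c' :: A := by
    intro t
    rw [hA]
    simp only [List.mem_append, List.mem_cons]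
    (first | grind | tauto)
  rw [← hA]
  have hR : ∃ R : List Ω, R.Nodup ∧ 580 ≤ R.length ∧ ∀ t ∈ R, t ∈ A ∧ p t ∈ A := by
    obtain ⟨R, h1, h2, h3⟩ := hr
    have hc'B : c' ∈ B := by rw [hB]; simp [hc']
    refine ⟨R, h1, h2, fun t ht => ?_⟩
    obtain ⟨h4, h5⟩ := h3 t ht
    have h4 := (hmem t).mp h4
    have h5 := (hmem (p t)).mp h5
    constructor
    · rcases List.mem_cons.mp h4 with rfl | h
      · exact (hdis (p (p c')) h5 (by rw [hinv]; exact hc'B)).elim
      · exact h
    · rcases List.mem_cons.mp h5 with h | h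
      · have : t = c' := by rw [← hinv t, h, hinv]
        subst this
        exact (hdis t h4 hc'B).elim
      · exact h
  by_cases hF : ∀ F : List Ω, F.Nodup → (∀ t ∈ F, t ∈ A ∧ p t ∈ A ∧ p t ∉ F) →
      (∀ (X Y Z : List Ω) (t t' : Ω), A = X ++ t :: (Y ++ t' :: Z) → (t ∈ F ∨ p t ∈ F) → (t' ∈ F ∨ p t' ∈ F) → ∃ m ∈ Y, p m ∈ B) →
      F.length < 22
  · exact (NTC.ISOR Ω p (Drop p 30) hinv hne (NTC.drC hinv hne) (NTC.redC hinv hne) (p c') y A B ⟨hw1.nd, hw1.cl⟩ hBY hF hR).mono (by omega)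
  push Not at hF
  obtain ⟨F, hF1, hF2, hF3, hF4⟩ := hF
  -- the substate
  let q : Ω → Bool := fun t => decide ((t ∈ p c' :: A ∧ p t ∈ B) ∨ (t ∈ B ∧ p t ∈ p c' :: A) ∨ t ∈ F ∨ p t ∈ F ∨ t = y ∨ p t = y)
  have hq : ∀ t, q (p t) = q t := by
    intro t
    simp only [q, hinv, decide_eq_decide]
    have e1 : p t = y ↔ t = p y := ⟨fun h => by rw [← h, hinv], fun h => by rw [h, hinv]⟩
    (first | grind | tauto)
  have hqt : ∀ t, q t = true ↔ ((t ∈ p c' :: A ∧ p t ∈ B) ∨ (t ∈ B ∧ p t ∈ p c' :: A) ∨ t ∈ F ∨ p t ∈ F ∨ t = y ∨ p t = y) := by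
    intro t
    simp only [q, decide_eq_true_eq]
  have hw2 := wf_fil hq hw1
  have hm1 : ∀ t, t ∈ (fil q ((p c' :: A, B) : St Ω)).1 ↔ (t ∈ p c' :: A ∧ q t = true) := fun t => List.mem_filter
  have hm2 : ∀ t, t ∈ (fil q ((p c' :: A, B) : St Ω)).2 ↔ (t ∈ B ∧ q t = true) := fun t => List.mem_filter
  have hFA : ∀ t, t ∈ F ∨ p t ∈ F → t ∈ A ∧ p t ∈ A := by
    rintro t (h | h)
    · exact ⟨(hF2 t h).1, (hF2 t h).2.1⟩
    · have := hF2 (p t) h
      rw [hinv] at this
      exact ⟨this.2.1, this.1⟩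
  -- the tokens of the substate
  have hA' : ∀ t, t ∈ p c' :: A → q t = true → p t ∈ B ∨ (t ∈ F ∨ p t ∈ F) := by
    intro t h1 h2
    rw [hqt] at h2
    rcases h2 with h | h | h | h | h | h
    · exact Or.inl h.2
    · exact (hdis t h1 h.1).elim
    · exact Or.inr (Or.inl h)
    · exact Or.inr (Or.inr h)
    · exact (hdis t h1 (h ▸ hyB)).elim
    · have : t = p y := by rw [← h, hinv]
      exact (hdis t h1 (this ▸ hy)).elim
  have hB' : ∀ t, t ∈ B → q t = true → t ≠ y → t ≠ p y → p t ∈ p c' :: A := by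
    intro t h1 h2 h3 h4
    rw [hqt] at h2
    rcases h2 with h | h | h | h | h | h
    · exact (hdis t h.1 h1).elim
    · exact h.2
    · exact (hdis t (List.mem_cons_of_mem _ (hFA t (Or.inl h)).1) h1).elim
    · exact (hdis t (List.mem_cons_of_mem _ (hFA t (Or.inr h)).1) h1).elim
    · exact (h3 h).elim
    · exact (h4 (by rw [← h, hinv])).elim
  have hqy : q y = true := (hqt y).mpr (by (first | grind | tauto))
  have hqy' : q (p y) = true := by rw [hq]; exact hqy
  have hqc : q c' = true := (hqt c').mpr (Or.inr (Or.inl ⟨by rw [hB]; simp [hc'], by simp⟩))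
  have hBf : B.filter q = I.filter q ++ y :: J.filter q := by
    rw [hB, List.filter_append, List.filter_cons, if_pos hqy]
  have hnd2 := hw2.nd
  have hndB : (B.filter q).Nodup := (List.nodup_append.mp hnd2).2.1
  -- the blue token
  obtain ⟨y', hy', h, L1, L2, hL, hh⟩ : ∃ y', (y' = y ∨ y' = p y) ∧ ∃ h L1 L2, B.filter q = L1 ++ y' :: h :: L2 ∧ h ≠ y ∧ h ≠ p y := by
    rw [hBf] at hndB ⊢
    obtain ⟨JJ, hJJ⟩ : ∃ JJ, JJ = J.filter q := ⟨_, rfl⟩
    have h1 : p y ∈ JJ := by rw [hJJ]; exact List.mem_filter.mpr ⟨hyJ, hqy'⟩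
    have h2 : c' ∈ JJ := by rw [hJJ]; exact List.mem_filter.mpr ⟨hc', hqc⟩
    have h3 : c' ≠ p y := by
      rintro rfl
      exact hdis (p (p y)) (by simp) (by rw [hinv]; exact hyB)
    rw [← hJJ] at hndB ⊢
    have h4 : y ∉ JJ := (List.nodup_cons.mp (List.nodup_append.mp hndB).2.1).1
    have h5 : JJ.Nodup := (List.nodup_cons.mp (List.nodup_append.mp hndB).2.1).2
    cases JJ with
    | nil => simp at h1
    | cons h T =>
      by_cases hh : h = p y
      · subst hh
        cases T with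
        | nil =>
          simp at h2
          exact absurd h2 h3
        | cons h' T =>
          refine ⟨p y, Or.inr rfl, h', I.filter q ++ [y], T, by simp, ?_, ?_⟩
          · rintro rfl
            exact h4 (by simp)
          · rintro rfl
            simp at h5
      · refine ⟨y, Or.inl rfl, h, I.filter q, T, by simp, ?_, hh⟩
        rintro rfl
        exact h4 (by simp)
  have hRI : RI p (fil q ((p c' :: A, B) : St Ω)) y' (F ++ F.map p).toFinset := by
    refine ⟨hw2, ?_, ?_, ?_, ?_, ?_, ?_⟩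
    · intro t
      rw [fam_mem hinv]
      constructor
      · intro ht
        have h1 := hFA t ht
        refine ⟨(hm1 t).mpr ⟨List.mem_cons_of_mem _ h1.1, (hqt t).mpr (by (first | grind | tauto))⟩, (hm1 (p t)).mpr ⟨List.mem_cons_of_mem _ h1.2, ?_⟩⟩
        rw [hq]
        exact (hqt t).mpr (by (first | grind | tauto))
      · rintro ⟨h1, h2⟩
        rw [hm1] at h1 h2
        rcases hA' t h1.1 h1.2 with h3 | h3
        · exact (hdis _ h2.1 h3).elim
        · exact h3
    · intro t ht
      rw [fam_mem hinv] at ht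
      have h1 := hFA t ht
      have hqt' : q t = true := (hqt t).mpr (by (first | grind | tauto))
      have htf : t ∈ A.filter q := List.mem_filter.mpr ⟨h1.1, hqt'⟩
      have hqc' : q (p c') = true := by rw [hq]; exact hqc
      have hAf : (fil q ((p c' :: A, B) : St Ω)).1 = p c' :: A.filter q := by
        change (p c' :: A).filter q = _
        rw [List.filter_cons, if_pos hqc']
      have hndA : (p c' :: A.filter q).Nodup := by
        rw [← hAf]
        exact (List.nodup_append.mp hnd2).1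
      obtain ⟨X, Y, hXY⟩ := List.append_of_mem htf
      have key : ∀ (g : Ω) (X' : List Ω), p c' :: A.filter q = X' ++ g :: t :: Y → pd (fil q ((p c' :: A, B) : St Ω)) t = g := by
        intro g X' hg
        apply pd_of_sc
        rw [sc_A hnd2]
        · rw [hAf, hg]
          exact formPerm_adj (hg ▸ hndA)
        · rw [hAf, hg]
          simp
      rcases List.eq_nil_or_concat X with rfl | ⟨X', g, rfl⟩
      · rw [key (p c') [] (by rw [hXY]; simp)]
        refine ⟨?_, ?_⟩
        · rw [hAf]; simp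
        · rw [hinv, hm2]
          exact ⟨by rw [hB]; simp [hc'], hqc⟩
      · have hg1 : A.filter q = X' ++ g :: t :: Y := by rw [hXY]; simp
        rw [key g (p c' :: X') (by rw [hg1]; simp)]
        have hg2 : g ∈ A.filter q := by rw [hg1]; simp
        have hg3 := List.mem_filter.mp hg2
        refine ⟨by rw [hAf]; exact List.mem_cons_of_mem _ hg2, ?_⟩
        rcases hA' g (List.mem_cons_of_mem _ hg3.1) hg3.2 with h3 | h3
        · rw [hm2]
          exact ⟨h3, by rw [hq]; exact hg3.2⟩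
        · exfalso
          obtain ⟨U, V, W, hU, hV⟩ := filter_adj hg1
          obtain ⟨m, hm, hmB⟩ := hF3 U V W g t hU h3 ht
          have h5 := hV m hm
          have h6 : q m = true := (hqt m).mpr (Or.inl ⟨by
            rw [hU]
            simp [hm], hmB⟩)
          rw [h5] at h6
          exact absurd h6 (by simp)
    · rcases hy' with rfl | rfl
      · exact ⟨(hm2 _).mpr ⟨hyB, hqy⟩, (hm2 _).mpr ⟨hy, hqy'⟩⟩
      · exact ⟨(hm2 _).mpr ⟨hy, hqy'⟩, by rw [hinv]; exact (hm2 _).mpr ⟨hyB, hqy⟩⟩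
    · rintro t ⟨h1, h2⟩
      rw [hm2] at h1 h2
      have h3 : t = y ∨ t = p y := by
        by_contra hno
        push Not at hno
        exact hdis _ (hB' t h1.1 h1.2 hno.1 hno.2) h2.1
      rcases hy' with rfl | rfl
      · exact h3
      · rw [hinv]
        exact h3.symm
    · change (B.filter q).getLast? ≠ some y'
      rw [hL] at hndB ⊢
      intro h1
      have h2 : (h :: L2).getLast? = some y' := by
        have e : L1 ++ y' :: h :: L2 = (L1 ++ [y']) ++ (h :: L2) := by simp
        rw [e, List.getLast?_append_of_ne_nil _ (by simp)] at h1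
        exact h1
      have h3 : y' ∈ h :: L2 := List.mem_of_getLast? h2
      exact (List.nodup_cons.mp (List.nodup_append.mp hndB).2.1).1 h3
    · have h1 : sc (fil q ((p c' :: A, B) : St Ω)) y' = h := by
        rw [sc_B hnd2]
        · change List.formPerm (B.filter q) y' = h
          rw [hL] at hndB ⊢
          exact formPerm_adj hndB
        · change y' ∈ B.filter q
          rw [hL]
          simp
      rw [h1]
      have h2 : h ∈ B.filter q := by rw [hL]; simp
      have h3 := List.mem_filter.mp h2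
      exact ⟨h2, (hm1 _).mpr ⟨hB' h h3.1 h3.2 hh.1 hh.2, by rw [hq]; exact h3.2⟩⟩
  have hD := hRW Ω p _ y' _ hRI (by
    rw [fam_card hinv hF1 (fun t ht => (hF2 t ht).2.2)]
    omega)
  have hlen2 : ((fil q ((p c' :: A, B) : St Ω)).1 ++ (fil q ((p c' :: A, B) : St Ω)).2).length ≤ (p c' :: A ++ B).length := by
    change (((p c' :: A).filter q) ++ (B.filter q)).length ≤ _
    rw [← List.filter_append]
    exact List.length_filter_le _ _
  refine drop_lift (q := q) hq hw1 ?_ (hD.mono (by omega))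
  intro t ht
  have h1 : ¬ ((t ∈ p c' :: A ∧ p t ∈ B) ∨ (t ∈ B ∧ p t ∈ p c' :: A) ∨ t ∈ F ∨ p t ∈ F ∨ t = y ∨ p t = y) := by
    rw [← hqt, ht]
    simp
  push Not at h1
  constructor
  · intro h2
    rcases List.mem_append.mp (hw1.cl t (List.mem_append_left _ h2)) with h | h
    · exact h
    · exact absurd h (h1.1 h2)
  · intro h2
    rcases List.mem_append.mp (hw1.cl t (List.mem_append_right _ h2)) with h | h
    · exact absurd h (h1.2.1 h2)
    · exact h

/-- **the blue case.** -/
theorem blu_step (hBW : NAW.BWK_stmt) (hIB : NTC.ISOB_stmt.{0}) {s : St Ω} (hw : WF p s) (hir : IrB p s)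
    (hb : ∃ R : List Ω, R.Nodup ∧ 600 ≤ R.length ∧ ∀ t ∈ R, t ∈ s.2 ∧ p t ∈ s.2) (hr : ∃ t, Red p s t) :
    Drop p (10 * (s.1 ++ s.2).length + 30) s := by
  obtain ⟨A, B⟩ := s
  have hinv := hw.inv
  have hne := hw.ne
  have hdis : ∀ t, t ∈ A → t ∈ B → False := fun t h1 h2 => (List.nodup_append.mp hw.nd).2.2 t h1 t h2 rfl
  obtain ⟨x, hx, hx'⟩ := hr
  change x ∈ A at hx
  change p x ∈ A at hx'
  have hir' : ∀ T S : List Ω, B = T ++ S → S ≠ [] → ∃ t ∈ S, p t ∉ S := by
    intro T S hTS hS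
    by_contra hno
    push Not at hno
    exact hS (hir T S hTS hno)
  by_cases hF : ∀ F : List Ω, F.Nodup → (∀ t ∈ F, t ∈ B ∧ p t ∈ B ∧ p t ∉ F) →
      (∀ (X Y Z : List Ω) (t t' : Ω), B = X ++ t :: (Y ++ t' :: Z) → (t ∈ F ∨ p t ∈ F) → (t' ∈ F ∨ p t' ∈ F) → ∃ m ∈ Y, p m ∈ A) →
      (∀ (X Y : List Ω) (t : Ω), B = X ++ t :: Y → (t ∈ F ∨ p t ∈ F) → (∃ m ∈ X, p m ∈ A) ∧ (∃ m ∈ Y, p m ∈ A)) →
      F.length < 24
  · exact (hIB Ω p (Drop p 30) hinv hne (NTC.drC hinv hne) (NTC.blueC hinv hne) x A B ⟨hw.nd, hw.cl⟩ hx hx' hir' hF hb).mono (by omega)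
  push Not at hF
  obtain ⟨F, hF1, hF2, hF3, hF4, hF5⟩ := hF
  let q : Ω → Bool := fun t => decide ((t ∈ A ∧ p t ∈ B) ∨ (t ∈ B ∧ p t ∈ A) ∨ t ∈ F ∨ p t ∈ F ∨ t = x ∨ p t = x)
  have hq : ∀ t, q (p t) = q t := by
    intro t
    simp only [q, hinv, decide_eq_decide]
    have e1 : p t = x ↔ t = p x := ⟨fun h => by rw [← h, hinv], fun h => by rw [h, hinv]⟩
    (first | grind | tauto)
  have hqt : ∀ t, q t = true ↔ ((t ∈ A ∧ p t ∈ B) ∨ (t ∈ B ∧ p t ∈ A) ∨ t ∈ F ∨ p t ∈ F ∨ t = x ∨ p t = x) := by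
    intro t
    simp only [q, decide_eq_true_eq]
  have hw2 := wf_fil hq hw
  have hm1 : ∀ t, t ∈ (fil q ((A, B) : St Ω)).1 ↔ (t ∈ A ∧ q t = true) := fun t => List.mem_filter
  have hm2 : ∀ t, t ∈ (fil q ((A, B) : St Ω)).2 ↔ (t ∈ B ∧ q t = true) := fun t => List.mem_filter
  have hFB : ∀ t, t ∈ F ∨ p t ∈ F → t ∈ B ∧ p t ∈ B := by
    rintro t (h | h)
    · exact ⟨(hF2 t h).1, (hF2 t h).2.1⟩
    · have := hF2 (p t) h
      rw [hinv] at this
      exact ⟨this.2.1, this.1⟩
  have hB' : ∀ t, t ∈ B → q t = true → p t ∈ A ∨ (t ∈ F ∨ p t ∈ F) := by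
    intro t h1 h2
    rw [hqt] at h2
    rcases h2 with h | h | h | h | h | h
    · exact (hdis t h.1 h1).elim
    · exact Or.inl h.2
    · exact Or.inr (Or.inl h)
    · exact Or.inr (Or.inr h)
    · exact (hdis t (h ▸ hx) h1).elim
    · have : t = p x := by rw [← h, hinv]
      exact (hdis t (this ▸ hx') h1).elim
  have hA' : ∀ t, t ∈ A → q t = true → t ≠ x → t ≠ p x → p t ∈ B := by
    intro t h1 h2 h3 h4
    rw [hqt] at h2
    rcases h2 with h | h | h | h | h | h
    · exact h.2
    · exact (hdis t h1 h.1).elim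
    · exact (hdis t h1 (hFB t (Or.inl h)).1).elim
    · exact (hdis t h1 (hFB t (Or.inr h)).1).elim
    · exact (h3 h).elim
    · exact (h4 (by rw [← h, hinv])).elim
  have hqx : q x = true := (hqt x).mpr (by (first | grind | tauto))
  have hnd2 := hw2.nd
  have hndB : (B.filter q).Nodup := (List.nodup_append.mp hnd2).2.1
  -- mixed tokens of B
  have hMB : ∀ t, t ∈ B → p t ∈ A → MB p (fil q ((A, B) : St Ω)) t := by
    intro t h1 h2
    have h3 : q t = true := (hqt t).mpr (Or.inr (Or.inl ⟨h1, h2⟩))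
    exact ⟨(hm2 t).mpr ⟨h1, h3⟩, (hm1 _).mpr ⟨h2, by rw [hq]; exact h3⟩⟩
  -- first and last
  have hBne : F ≠ [] := by
    rintro rfl
    simp at hF5
  obtain ⟨f0, hf0⟩ := List.exists_mem_of_ne_nil F hBne
  have hf0B := (hFB f0 (Or.inl hf0)).1
  have hBfne : B.filter q ≠ [] := by
    intro h
    have : f0 ∈ B.filter q := List.mem_filter.mpr ⟨hf0B, (hqt f0).mpr (by (first | grind | tauto))⟩
    rw [h] at this
    simp at this
  obtain ⟨f, hf⟩ : ∃ f, (B.filter q).getLast? = some f := by
    cases h : (B.filter q).getLast? with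
    | none => exact absurd (List.getLast?_eq_none_iff.mp h) hBfne
    | some f => exact ⟨f, rfl⟩
  have hfam : ∀ (X Y : List Ω) (t : Ω), B.filter q = X ++ t :: Y → (t ∈ F ∨ p t ∈ F) → X ≠ [] ∧ Y ≠ [] := by
    intro X Y t h1 h2
    obtain ⟨U, W, hU, hX, hY⟩ := filter_pt h1
    obtain ⟨⟨m, hm, hmA⟩, m', hm', hmA'⟩ := hF4 U W t hU h2
    constructor
    · rintro rfl
      have : m ∈ U.filter q := List.mem_filter.mpr ⟨hm, (hqt m).mpr (Or.inr (Or.inl ⟨by rw [hU]; simp [hm], hmA⟩))⟩
      rw [← hX] at this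
      simp at this
    · rintro rfl
      have : m' ∈ W.filter q := List.mem_filter.mpr ⟨hm', (hqt m').mpr (Or.inr (Or.inl ⟨by rw [hU]; simp [hm'], hmA'⟩))⟩
      rw [← hY] at this
      simp at this
  have hMf : MB p (fil q ((A, B) : St Ω)) f := by
    have h1 : f ∈ B.filter q := List.mem_of_getLast? hf
    have h2 := List.mem_filter.mp h1
    rcases hB' f h2.1 h2.2 with h3 | h3
    · exact hMB f h2.1 h3
    · exfalso
      obtain ⟨X, hX⟩ : ∃ X, B.filter q = X ++ [f] := by
        rcases List.eq_nil_or_concat (B.filter q) with h | ⟨X, g, h⟩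
        · exact absurd h hBfne
        · refine ⟨X, ?_⟩
          rw [h] at hf ⊢
          have : g = f := by simpa using hf
          rw [this, List.concat_eq_append]
      exact (hfam X [] f hX h3).2 rfl
  have hBI : BI p (fil q ((A, B) : St Ω)) x f (F ++ F.map p).toFinset := by
    refine ⟨hw2, ⟨(hm1 _).mpr ⟨hx, hqx⟩, (hm1 _).mpr ⟨hx', by rw [hq]; exact hqx⟩⟩, ?_, ?_, ?_, ?_, hf⟩
    · rintro t ⟨h1, h2⟩
      rw [hm1] at h1 h2
      by_contra hno
      push Not at hno
      exact hdis _ h2.1 (hA' t h1.1 h1.2 hno.1 hno.2)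
    · intro t
      rw [fam_mem hinv]
      constructor
      · intro ht
        have h1 := hFB t ht
        refine ⟨(hm2 t).mpr ⟨h1.1, (hqt t).mpr (by (first | grind | tauto))⟩, (hm2 (p t)).mpr ⟨h1.2, ?_⟩⟩
        rw [hq]
        exact (hqt t).mpr (by (first | grind | tauto))
      · rintro ⟨h1, h2⟩
        rw [hm2] at h1 h2
        rcases hB' t h1.1 h1.2 with h3 | h3
        · exact (hdis _ h3 h2.1).elim
        · exact h3
    · intro t ht
      rw [fam_mem hinv] at ht
      have h1 := hFB t ht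
      have htf : t ∈ B.filter q := List.mem_filter.mpr ⟨h1.1, (hqt t).mpr (by (first | grind | tauto))⟩
      obtain ⟨X, Y, hXY⟩ := List.append_of_mem htf
      rcases List.eq_nil_or_concat X with rfl | ⟨X', g, rfl⟩
      · exact absurd rfl (hfam [] Y t hXY ht).1
      · have hg1 : B.filter q = X' ++ g :: t :: Y := by rw [hXY]; simp
        have hpd : pd (fil q ((A, B) : St Ω)) t = g := by
          apply pd_of_sc
          rw [sc_B hnd2]
          · change List.formPerm (B.filter q) g = t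
            rw [hg1] at hndB ⊢
            exact formPerm_adj hndB
          · change g ∈ B.filter q
            rw [hg1]
            simp
        rw [hpd]
        have hg3 := List.mem_filter.mp (show g ∈ B.filter q by rw [hg1]; simp)
        rcases hB' g hg3.1 hg3.2 with h3 | h3
        · exact hMB g hg3.1 h3
        · exfalso
          obtain ⟨U, V, W, hU, hV⟩ := filter_adj hg1
          obtain ⟨m, hm, hmA⟩ := hF3 U V W g t hU h3 ht
          have h5 := hV m hm
          have h6 : q m = true := (hqt m).mpr (Or.inr (Or.inl ⟨by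
            rw [hU]
            simp [hm], hmA⟩))
          rw [h5] at h6
          exact absurd h6 (by simp)
    · intro t ht
      change (B.filter q).head? = some t at ht
      obtain ⟨Y, hY⟩ : ∃ Y, B.filter q = t :: Y := by
        cases h : B.filter q with
        | nil => rw [h] at ht; simp at ht
        | cons a Y =>
          rw [h] at ht
          simp at ht
          exact ⟨Y, by rw [ht]⟩
      have h2 := List.mem_filter.mp (show t ∈ B.filter q by rw [hY]; simp)
      rcases hB' t h2.1 h2.2 with h3 | h3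
      · exact hMB t h2.1 h3
      · exact absurd rfl (hfam [] Y t hY h3).1
  have hD := hBW Ω p _ x f _ hBI (by
    rw [fam_card hinv hF1 (fun t ht => (hF2 t ht).2.2)]
    omega) hMf
  have hlen2 : ((fil q ((A, B) : St Ω)).1 ++ (fil q ((A, B) : St Ω)).2).length ≤ (A ++ B).length := by
    change ((A.filter q) ++ (B.filter q)).length ≤ _
    rw [← List.filter_append]
    exact List.length_filter_le _ _
  have hlen3 : (((A, B) : St Ω).1 ++ ((A, B) : St Ω).2).length = (A ++ B).length := rfl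
  refine drop_lift (q := q) hq hw ?_ (hD.mono (by omega))
  intro t ht
  have h1 : ¬ ((t ∈ A ∧ p t ∈ B) ∨ (t ∈ B ∧ p t ∈ A) ∨ t ∈ F ∨ p t ∈ F ∨ t = x ∨ p t = x) := by
    rw [← hqt, ht]
    simp
  push Not at h1
  constructor
  · intro h2
    rcases List.mem_append.mp (hw.cl t (List.mem_append_left _ h2)) with h | h
    · exact h
    · exact absurd h (h1.1 h2)
  · intro h2
    rcases List.mem_append.mp (hw.cl t (List.mem_append_right _ h2)) with h | h
    · exact absurd h (h1.2.1 h2)
    · exact h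

/-- **THE STEP THEOREM.** -/
theorem astep (hRW : NAW.RWK_stmt) (hBW : NAW.BWK_stmt) (hIB : NTC.ISOB_stmt.{0}) : AStep_stmt.{0} := by
  intro Ω _ p s hw hir hr hb hD
  have h1 : NTS.D2 p s = s.1.countP (fun t => decide (p t ∈ s.1)) + s.2.countP (fun t => decide (p t ∈ s.2)) := by
    unfold NTS.D2
    congr 1 <;>
    · apply List.countP_congr
      intro t _
      simp
  by_cases h2 : 600 ≤ s.1.countP (fun t => decide (p t ∈ s.1))
  · refine red_step hRW hw hir ⟨s.1.filter (fun t => decide (p t ∈ s.1)), ?_, ?_, ?_⟩ hb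
    · exact (List.nodup_append.mp hw.nd).1.filter _
    · rw [List.countP_eq_length_filter] at h2
      omega
    · intro t ht
      have := List.mem_filter.mp ht
      exact ⟨this.1, by simpa using this.2⟩
  · refine blu_step hBW hIB hw hir ⟨s.2.filter (fun t => decide (p t ∈ s.2)), ?_, ?_, ?_⟩ hr
    · exact (List.nodup_append.mp hw.nd).2.1.filter _
    · rw [List.countP_eq_length_filter] at h1 h2
      rw [List.countP_eq_length_filter] at h1
      omega
    · intro t ht
      have := List.mem_filter.mp ht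
      exact ⟨this.1, by simpa using this.2⟩

/-- **THEOREM (A)** from the two walks. -/
theorem A_thm (hRW : NAW.RWK_stmt) (hBW : NAW.BWK_stmt) : A_stmt.{0} := A_final (astep hRW hBW (NTC.ISOB NTC.NEST))

end NA
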