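import Pool.Agent.helper55.NA.Br
import Pool.Agent.helper65.NTC.Spec

/-!
# MP_c8d30a, THEOREM (A): the certificates of sections 1 and 4 (generated; helper65's interface)
-/

set_option autoImplicit false

namespace NTC

open NTH NTS

universe u
variable {Ω : Type u} [DecidableEq Ω] {p : Ω → Ω}


/-- the red certificates. -/
theorem redC (hinv : ∀ t, p (p t) = t) (hne : ∀ t, p t ≠ t) : RedC p (NA.Drop p 30) where
  K1 := by
    intro c u v y P Q R S B hg hB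
    cases hB with
    | a I1 K1 H1 L1 =>
      exact NA.cert_drop ⟨hg.nd, hg.cl, hinv, hne⟩ (fun n => [c, u, v, y].getD n c) (fun n => [P, Q, R, S, I1, K1, H1, L1].getD n []) 1
        [.th 0 1 3, .th 3 2 0] ([.t 0 false, .w 0, .t 1 false, .w 1, .t 1 true, .t 2 false, .w 2, .t 2 true, .w 3], [.w 4, .t 3 false, .w 5, .t 0 true, .w 6, .t 3 true, .w 7]) _
        (by simp [evs, tk]) rfl rfl (by decide)
    | b I1 H1 K1 L1 =>
      exact NA.cert_drop ⟨hg.nd, hg.cl, hinv, hne⟩ (fun n => [c, u, v, y].getD n c) (fun n => [P, Q, R, S, I1, H1, K1, L1].getD n []) 1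
        [.th 0 1 3, .th 3 2 0] ([.t 0 false, .w 0, .t 1 false, .w 1, .t 1 true, .t 2 false, .w 2, .t 2 true, .w 3], [.w 4, .t 3 false, .w 5, .t 3 true, .w 6, .t 0 true, .w 7]) _
        (by simp [evs, tk]) rfl rfl (by decide)
  K2 := by
    intro c u v y P Q R S B hg hB
    cases hB with
    | a I1 K1 H1 L1 =>
      exact NA.cert_drop ⟨hg.nd, hg.cl, hinv, hne⟩ (fun n => [c, u, v, y].getD n c) (fun n => [P, Q, R, S, I1, K1, H1, L1].getD n []) 1
        [.th 0 1 3, .th 3 2 0] ([.t 0 false, .w 0, .t 1 false, .w 1, .t 2 false, .w 2, .t 1 true, .t 2 true, .w 3], [.w 4, .t 3 false, .w 5, .t 0 true, .w 6, .t 3 true, .w 7]) _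
        (by simp [evs, tk]) rfl rfl (by decide)
    | b I1 H1 K1 L1 =>
      exact NA.cert_drop ⟨hg.nd, hg.cl, hinv, hne⟩ (fun n => [c, u, v, y].getD n c) (fun n => [P, Q, R, S, I1, H1, K1, L1].getD n []) 1
        [.th 0 1 3, .th 3 2 0] ([.t 0 false, .w 0, .t 1 false, .w 1, .t 2 false, .w 2, .t 1 true, .t 2 true, .w 3], [.w 4, .t 3 false, .w 5, .t 3 true, .w 6, .t 0 true, .w 7]) _
        (by simp [evs, tk]) rfl rfl (by decide)
  N3 := by
    intro c a b d y P Q R S T B hg hB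
    cases hB with
    | a I1 K1 H1 L1 =>
      exact NA.cert_drop ⟨hg.nd, hg.cl, hinv, hne⟩ (fun n => [c, a, b, d, y].getD n c) (fun n => [P, Q, R, S, T, I1, K1, H1, L1].getD n []) 1
        [.th 0 1 4, .th 4 3 0, .th 2 3 4, .th 4 1 2] ([.t 0 false, .w 0, .t 1 false, .t 2 false, .t 3 false, .w 1, .t 3 true, .w 2, .t 2 true, .w 3, .t 1 true, .w 4], [.w 5, .t 4 false, .w 6, .t 0 true, .w 7, .t 4 true, .w 8]) _
        (by simp [evs, tk]) rfl rfl (by decide)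
    | b I1 H1 K1 L1 =>
      exact NA.cert_drop ⟨hg.nd, hg.cl, hinv, hne⟩ (fun n => [c, a, b, d, y].getD n c) (fun n => [P, Q, R, S, T, I1, H1, K1, L1].getD n []) 1
        [.th 0 1 4, .th 4 3 0, .th 2 3 4, .th 4 1 2] ([.t 0 false, .w 0, .t 1 false, .t 2 false, .t 3 false, .w 1, .t 3 true, .w 2, .t 2 true, .w 3, .t 1 true, .w 4], [.w 5, .t 4 false, .w 6, .t 4 true, .w 7, .t 0 true, .w 8]) _
        (by simp [evs, tk]) rfl rfl (by decide)
  S4 := by
    intro c a b d e y P Q R S O T B hg hB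
    cases hB with
    | a I1 K1 H1 L1 =>
      exact NA.cert_drop ⟨hg.nd, hg.cl, hinv, hne⟩ (fun n => [c, a, b, d, e, y].getD n c) (fun n => [P, Q, R, S, O, T, I1, K1, H1, L1].getD n []) 1
        [.th 0 1 5, .th 5 2 0, .th 0 4 5, .th 3 4 0, .th 5 1 3] ([.t 0 false, .w 0, .t 1 false, .w 1, .t 2 false, .w 2, .t 3 false, .w 3, .t 4 false, .w 4, .t 4 true, .t 3 true, .t 2 true, .t 1 true, .w 5], [.w 6, .t 5 false, .w 7, .t 0 true, .w 8, .t 5 true, .w 9]) _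
        (by simp [evs, tk]) rfl rfl (by decide)
    | b I1 H1 K1 L1 =>
      exact NA.cert_drop ⟨hg.nd, hg.cl, hinv, hne⟩ (fun n => [c, a, b, d, e, y].getD n c) (fun n => [P, Q, R, S, O, T, I1, H1, K1, L1].getD n []) 1
        [.th 0 1 5, .th 5 2 0, .th 0 4 5, .th 3 4 0, .th 5 1 3] ([.t 0 false, .w 0, .t 1 false, .w 1, .t 2 false, .w 2, .t 3 false, .w 3, .t 4 false, .w 4, .t 4 true, .t 3 true, .t 2 true, .t 1 true, .w 5], [.w 6, .t 5 false, .w 7, .t 5 true, .w 8, .t 0 true, .w 9]) _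
        (by simp [evs, tk]) rfl rfl (by decide)
  D3 := by
    intro c a b d y P Q R S B hg hB
    cases hB with
    | a I1 K1 H1 L1 =>
      exact NA.cert_drop ⟨hg.nd, hg.cl, hinv, hne⟩ (fun n => [c, a, b, d, y].getD n c) (fun n => [P, Q, R, S, I1, K1, H1, L1].getD n []) 1
        [.th 0 2 4, .th 4 3 1, .th 2 3 0, .th 4 3 2] ([.t 0 false, .w 0, .t 1 false, .t 1 true, .w 1, .t 2 false, .t 2 true, .w 2, .t 3 false, .t 3 true, .w 3], [.w 4, .t 4 false, .w 5, .t 0 true, .w 6, .t 4 true, .w 7]) _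
        (by simp [evs, tk]) rfl rfl (by decide)
    | b I1 H1 K1 L1 =>
      exact NA.cert_drop ⟨hg.nd, hg.cl, hinv, hne⟩ (fun n => [c, a, b, d, y].getD n c) (fun n => [P, Q, R, S, I1, H1, K1, L1].getD n []) 1
        [.th 0 2 4, .th 4 3 1, .th 2 3 0, .th 4 3 2] ([.t 0 false, .w 0, .t 1 false, .t 1 true, .w 1, .t 2 false, .t 2 true, .w 2, .t 3 false, .t 3 true, .w 3], [.w 4, .t 4 false, .w 5, .t 4 true, .w 6, .t 0 true, .w 7]) _
        (by simp [evs, tk]) rfl rfl (by decide)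
  C3a := by
    intro a b d w v c y P Q R S T I J B hg hB
    cases hB with
    | a I1 K1 H1 L1 =>
      exact NA.cert_drop ⟨hg.nd, hg.cl, hinv, hne⟩ (fun n => [a, b, d, w, v, c, y].getD n a) (fun n => [P, Q, R, S, T, I, J, I1, K1, H1, L1].getD n []) 1
        [.th 5 0 6, .th 6 1 5, .th 5 2 4, .th 1 2 5, .th 5 2 6, .th 6 0 5] ([.t 0 false, .t 1 false, .t 2 false, .w 0, .t 3 false, .t 0 true, .w 1, .t 4 false, .t 1 true, .w 2, .t 2 true, .w 3, .t 5 false, .w 4], [.w 5, .t 3 true, .w 6, .t 4 true, .w 7, .t 6 false, .w 8, .t 5 true, .w 9, .t 6 true, .w 10]) _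
        (by simp [evs, tk]) rfl rfl (by decide)
    | b I1 H1 K1 L1 =>
      exact NA.cert_drop ⟨hg.nd, hg.cl, hinv, hne⟩ (fun n => [a, b, d, w, v, c, y].getD n a) (fun n => [P, Q, R, S, T, I, J, I1, H1, K1, L1].getD n []) 1
        [.th 5 0 6, .th 6 1 5, .th 5 2 4, .th 1 2 5, .th 5 2 6, .th 6 0 5] ([.t 0 false, .t 1 false, .t 2 false, .w 0, .t 3 false, .t 0 true, .w 1, .t 4 false, .t 1 true, .w 2, .t 2 true, .w 3, .t 5 false, .w 4], [.w 5, .t 3 true, .w 6, .t 4 true, .w 7, .t 6 false, .w 8, .t 6 true, .w 9, .t 5 true, .w 10]) _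
        (by simp [evs, tk]) rfl rfl (by decide)
  C3b := by
    intro a b d w v c y P Q R S T I J B hg hB
    cases hB with
    | a I1 K1 H1 L1 =>
      exact NA.cert_drop ⟨hg.nd, hg.cl, hinv, hne⟩ (fun n => [a, b, d, w, v, c, y].getD n a) (fun n => [P, Q, R, S, T, I, J, I1, K1, H1, L1].getD n []) 1
        [.th 5 1 6, .th 0 1 5, .th 3 1 4, .th 4 2 0] ([.t 0 false, .t 1 false, .t 2 false, .w 0, .t 3 false, .t 0 true, .w 1, .t 4 false, .t 1 true, .w 2, .t 2 true, .w 3, .t 5 false, .w 4], [.w 5, .t 4 true, .w 6, .t 3 true, .w 7, .t 6 false, .w 8, .t 5 true, .w 9, .t 6 true, .w 10]) _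
        (by simp [evs, tk]) rfl rfl (by decide)
    | b I1 H1 K1 L1 =>
      exact NA.cert_drop ⟨hg.nd, hg.cl, hinv, hne⟩ (fun n => [a, b, d, w, v, c, y].getD n a) (fun n => [P, Q, R, S, T, I, J, I1, H1, K1, L1].getD n []) 1
        [.th 5 1 6, .th 0 1 5, .th 3 1 4, .th 4 2 0] ([.t 0 false, .t 1 false, .t 2 false, .w 0, .t 3 false, .t 0 true, .w 1, .t 4 false, .t 1 true, .w 2, .t 2 true, .w 3, .t 5 false, .w 4], [.w 5, .t 4 true, .w 6, .t 3 true, .w 7, .t 6 false, .w 8, .t 6 true, .w 9, .t 5 true, .w 10]) _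
        (by simp [evs, tk]) rfl rfl (by decide)

/-- the blue certificate `K'`. -/
theorem blueK (hinv : ∀ t, p (p t) = t) (hne : ∀ t, p t ≠ t) (c x u v : Ω) (P Q R B : List Ω)
    (hg : Gd p (c :: P ++ x :: Q ++ p x :: R, B)) (hB : BK p c u v B) : NA.Drop p 30 (c :: P ++ x :: Q ++ p x :: R, B) := by
  cases hB with
  | a I1 J1 K1 L1 G1 =>
    exact NA.cert_drop ⟨hg.nd, hg.cl, hinv, hne⟩ (fun n => [c, x, u, v].getD n c) (fun n => [P, Q, R, I1, J1, G1, K1, L1].getD n []) 1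
      [.th 0 1 3, .th 3 1 2] ([.t 0 false, .w 0, .t 1 false, .w 1, .t 1 true, .w 2], [.w 3, .t 2 false, .t 3 false, .w 4, .t 3 true, .w 5, .t 0 true, .w 6, .t 2 true, .w 7]) _
      (by simp [evs, tk]) rfl rfl (by decide)
  | b I1 J1 K1 L1 G1 =>
    exact NA.cert_drop ⟨hg.nd, hg.cl, hinv, hne⟩ (fun n => [c, x, u, v].getD n c) (fun n => [P, Q, R, I1, J1, K1, G1, L1].getD n []) 1
      [.th 0 1 3, .th 3 1 2] ([.t 0 false, .w 0, .t 1 false, .w 1, .t 1 true, .w 2], [.w 3, .t 2 false, .t 3 false, .w 4, .t 2 true, .w 5, .t 3 true, .w 6, .t 0 true, .w 7]) _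
      (by simp [evs, tk]) rfl rfl (by decide)
  | c I1 J1 K1 L1 G1 =>
    exact NA.cert_drop ⟨hg.nd, hg.cl, hinv, hne⟩ (fun n => [c, x, v, u].getD n c) (fun n => [P, Q, R, I1, G1, J1, K1, L1].getD n []) 1
      [.th 0 1 2, .th 2 1 3] ([.t 0 false, .w 0, .t 1 false, .w 1, .t 1 true, .w 2], [.w 3, .t 2 true, .w 4, .t 0 true, .w 5, .t 3 false, .t 2 false, .w 6, .t 3 true, .w 7]) _
      (by simp [evs, tk]) rfl rfl (by decide)
  | d I1 J1 K1 L1 G1 =>
    exact NA.cert_drop ⟨hg.nd, hg.cl, hinv, hne⟩ (fun n => [c, x, v, u].getD n c) (fun n => [P, Q, R, I1, G1, J1, K1, L1].getD n []) 1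
      [.th 0 1 2, .th 2 1 3] ([.t 0 false, .w 0, .t 1 false, .w 1, .t 1 true, .w 2], [.w 3, .t 2 true, .w 4, .t 0 true, .w 5, .t 3 true, .w 6, .t 3 false, .t 2 false, .w 7]) _
      (by simp [evs, tk]) rfl rfl (by decide)
  | e I1 J1 K1 L1 G1 =>
    exact NA.cert_drop ⟨hg.nd, hg.cl, hinv, hne⟩ (fun n => [c, x, u, v].getD n c) (fun n => [P, Q, R, I1, J1, K1, G1, L1].getD n []) 1
      [.th 0 1 3, .th 3 1 2] ([.t 0 false, .w 0, .t 1 false, .w 1, .t 1 true, .w 2], [.w 3, .t 2 true, .w 4, .t 2 false, .t 3 false, .w 5, .t 3 true, .w 6, .t 0 true, .w 7]) _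
      (by simp [evs, tk]) rfl rfl (by decide)
  | f I1 J1 K1 L1 G1 =>
    exact NA.cert_drop ⟨hg.nd, hg.cl, hinv, hne⟩ (fun n => [c, x, u, v].getD n c) (fun n => [P, Q, R, I1, J1, G1, K1, L1].getD n []) 1
      [.th 0 1 3, .th 3 1 2] ([.t 0 false, .w 0, .t 1 false, .w 1, .t 1 true, .w 2], [.w 3, .t 2 true, .w 4, .t 3 true, .w 5, .t 0 true, .w 6, .t 2 false, .t 3 false, .w 7]) _
      (by simp [evs, tk]) rfl rfl (by decide)

theorem blueN3' (hinv : ∀ t, p (p t) = t) (hne : ∀ t, p t ≠ t) (c x u v w : Ω) (P Q R I J K L : List Ω)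
    (hg : Gd p (c :: P ++ x :: Q ++ p x :: R, I ++ u :: v :: w :: J ++ p c :: K ++ p w :: p v :: p u :: L)) :
    NA.Drop p 30 (c :: P ++ x :: Q ++ p x :: R, I ++ u :: v :: w :: J ++ p c :: K ++ p w :: p v :: p u :: L) := by
  exact NA.cert_drop ⟨hg.nd, hg.cl, hinv, hne⟩ (fun n => [c, x, u, v, w].getD n c) (fun n => [P, Q, R, I, J, K, L].getD n []) 1
    [.th 0 1 3, .th 4 1 2, .th 0 1 4, .th 3 1 0] ([.t 0 false, .w 0, .t 1 false, .w 1, .t 1 true, .w 2], [.w 3, .t 2 false, .t 3 false, .t 4 false, .w 4, .t 0 true, .w 5, .t 4 true, .t 3 true, .t 2 true, .w 6]) _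
    (by simp [evs, tk]) rfl rfl (by decide)

theorem blueD3' (hinv : ∀ t, p (p t) = t) (hne : ∀ t, p t ≠ t) (c x u v w : Ω) (P Q R I H J K L : List Ω)
    (hg : Gd p (c :: P ++ x :: Q ++ p x :: R, I ++ u :: p u :: H ++ v :: p v :: J ++ w :: p w :: K ++ p c :: L)) :
    NA.Drop p 30 (c :: P ++ x :: Q ++ p x :: R, I ++ u :: p u :: H ++ v :: p v :: J ++ w :: p w :: K ++ p c :: L) := by
  exact NA.cert_drop ⟨hg.nd, hg.cl, hinv, hne⟩ (fun n => [c, x, u, v, w].getD n c) (fun n => [P, Q, R, I, H, J, K, L].getD n []) 1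
    [.th 0 1 3, .th 3 4 2, .th 0 1 3, .th 4 1 0] ([.t 0 false, .w 0, .t 1 false, .w 1, .t 1 true, .w 2], [.w 3, .t 2 false, .t 2 true, .w 4, .t 3 false, .t 3 true, .w 5, .t 4 false, .t 4 true, .w 6, .t 0 true, .w 7]) _
    (by simp [evs, tk]) rfl rfl (by decide)

theorem blueP1 (hinv : ∀ t, p (p t) = t) (hne : ∀ t, p t ≠ t) (c x u v : Ω) (Q R I J L : List Ω)
    (hg : Gd p (c :: x :: Q ++ p x :: R, I ++ u :: v :: J ++ p v :: p u :: p c :: L)) :
    NA.Drop p 30 (c :: x :: Q ++ p x :: R, I ++ u :: v :: J ++ p v :: p u :: p c :: L) := by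
  exact NA.cert_drop ⟨hg.nd, hg.cl, hinv, hne⟩ (fun n => [c, x, u, v].getD n c) (fun n => [Q, R, I, J, L].getD n []) 1
    [.th 0 1 3] ([.t 0 false, .t 1 false, .w 0, .t 1 true, .w 1], [.w 2, .t 2 false, .t 3 false, .w 3, .t 3 true, .t 2 true, .t 0 true, .w 4]) _
    (by simp [evs, tk]) rfl rfl (by decide)

theorem blueAL (hinv : ∀ t, p (p t) = t) (hne : ∀ t, p t ≠ t) (c d x u v w z : Ω) (Q R S I K J L : List Ω)
    (hg : Gd p (c :: d :: Q ++ x :: R ++ p x :: S, I ++ p d :: K ++ u :: v :: w :: z :: p z :: p w :: p v :: p u :: J ++ p c :: L)) :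
    NA.Drop p 30 (c :: d :: Q ++ x :: R ++ p x :: S, I ++ p d :: K ++ u :: v :: w :: z :: p z :: p w :: p v :: p u :: J ++ p c :: L) := by
  exact NA.cert_drop ⟨hg.nd, hg.cl, hinv, hne⟩ (fun n => [c, d, x, u, v, w, z].getD n c) (fun n => [Q, R, S, I, K, J, L].getD n []) 1
    [.th 0 2 4, .th 3 2 1, .th 1 2 0, .th 0 2 6, .th 5 2 3] ([.t 0 false, .t 1 false, .w 0, .t 2 false, .w 1, .t 2 true, .w 2], [.w 3, .t 1 true, .w 4, .t 3 false, .t 4 false, .t 5 false, .t 6 false, .t 6 true, .t 5 true, .t 4 true, .t 3 true, .w 5, .t 0 true, .w 6]) _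
    (by simp [evs, tk]) rfl rfl (by decide)

theorem blueGA (hinv : ∀ t, p (p t) = t) (hne : ∀ t, p t ≠ t) (c d x u v w z : Ω) (P Q R S I J K : List Ω)
    (hg : Gd p (c :: P ++ x :: Q ++ d :: R ++ p x :: S, u :: v :: w :: z :: p z :: p w :: p v :: p u :: I ++ p c :: J ++ p d :: K)) :
    NA.Drop p 30 (c :: P ++ x :: Q ++ d :: R ++ p x :: S, u :: v :: w :: z :: p z :: p w :: p v :: p u :: I ++ p c :: J ++ p d :: K) := by
  exact NA.cert_drop ⟨hg.nd, hg.cl, hinv, hne⟩ (fun n => [c, x, d, u, v, w, z].getD n c) (fun n => [P, Q, R, S, I, J, K].getD n []) 1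
    [.th 0 1 3, .th 2 1 6, .th 5 1 3, .th 4 1 0] ([.t 0 false, .w 0, .t 1 false, .w 1, .t 2 false, .w 2, .t 1 true, .w 3], [.t 3 false, .t 4 false, .t 5 false, .t 6 false, .t 6 true, .t 5 true, .t 4 true, .t 3 true, .w 4, .t 0 true, .w 5, .t 2 true, .w 6]) _
    (by simp [evs, tk]) rfl rfl (by decide)

theorem blueDE1 (hinv : ∀ t, p (p t) = t) (hne : ∀ t, p t ≠ t) (a b c x u v w : Ω) (O P Q R I J K L : List Ω)
    (hg : Gd p (x :: p x :: O ++ a :: P ++ b :: Q ++ c :: R, u :: v :: w :: p w :: p v :: p u :: I ++ p a :: J ++ p c :: K ++ p b :: L)) :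
    NA.Drop p 30 (x :: p x :: O ++ a :: P ++ b :: Q ++ c :: R, u :: v :: w :: p w :: p v :: p u :: I ++ p a :: J ++ p c :: K ++ p b :: L) := by
  exact NA.cert_drop ⟨hg.nd, hg.cl, hinv, hne⟩ (fun n => [x, a, b, c, u, v, w].getD n x) (fun n => [O, P, Q, R, I, J, K, L].getD n []) 1
    [.th 1 0 5, .th 5 0 2, .th 3 0 6, .th 6 0 4] ([.t 0 false, .t 0 true, .w 0, .t 1 false, .w 1, .t 2 false, .w 2, .t 3 false, .w 3], [.t 4 false, .t 5 false, .t 6 false, .t 6 true, .t 5 true, .t 4 true, .w 4, .t 1 true, .w 5, .t 3 true, .w 6, .t 2 true, .w 7]) _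
    (by simp [evs, tk]) rfl rfl (by decide)

theorem blueDE2 (hinv : ∀ t, p (p t) = t) (hne : ∀ t, p t ≠ t) (a b c x u v w : Ω) (O P Q R I J K L : List Ω)
    (hg : Gd p (x :: p x :: O ++ a :: P ++ b :: Q ++ c :: R, u :: v :: w :: p w :: p v :: p u :: I ++ p b :: J ++ p a :: K ++ p c :: L)) :
    NA.Drop p 30 (x :: p x :: O ++ a :: P ++ b :: Q ++ c :: R, u :: v :: w :: p w :: p v :: p u :: I ++ p b :: J ++ p a :: K ++ p c :: L) := by
  exact NA.cert_drop ⟨hg.nd, hg.cl, hinv, hne⟩ (fun n => [x, a, b, c, u, v, w].getD n x) (fun n => [O, P, Q, R, I, J, K, L].getD n []) 1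
    [.th 2 0 5, .th 5 0 3, .th 1 0 6, .th 6 0 4] ([.t 0 false, .t 0 true, .w 0, .t 1 false, .w 1, .t 2 false, .w 2, .t 3 false, .w 3], [.t 4 false, .t 5 false, .t 6 false, .t 6 true, .t 5 true, .t 4 true, .w 4, .t 2 true, .w 5, .t 1 true, .w 6, .t 3 true, .w 7]) _
    (by simp [evs, tk]) rfl rfl (by decide)

end NTC
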