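import Pool.Agent.helper55.NA.Asm
import Pool.Agent.helper14.NTA.TBF

/-!
# MP_c8d30a, THEOREM (A) in the form used by the counting part (helper14's `HA`)
-/

set_option autoImplicit false

namespace NA

open NTH

theorem D2_nc {Ω : Type} {p : Ω → Ω} (s : St Ω) : NTS.D2 p s = nc p s := by
  classical
  rw [nc_eq]
  unfold NTS.D2
  rw [List.countP_eq_length_filter, List.countP_eq_length_filter]

theorem HA_of_A (h : A_stmt.{0}) : HA 1200 (fun m => m * (10 * m + 30) * m) := by
  intro Ω p s hw _ hd
  obtain ⟨e, A, B, h1, -, -, h2⟩ := h Ω p s hw hd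
  exact ⟨e, A, B, h1, by rw [← D2_nc]; exact h2⟩

/-- **(A) from the two walks.** -/
theorem HA_walks (hRW : NAW.RWK_stmt) (hBW : NAW.BWK_stmt) : HA 1200 (fun m => m * (10 * m + 30) * m) := HA_of_A (A_thm hRW hBW)

/-- the bound for irreducible two sided states, from the two walks. -/
theorem TB_walks (hRW : NAW.RWK_stmt) (hBW : NAW.BWK_stmt) : TB (FB 1200 (fun m => m * (10 * m + 30) * m)) := TBF (HA_walks hRW hBW)

end NA
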